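import Pool.Agent.Lib.MP_9c2101_gt.Maps

/-!
Obstruction theory on CW complexes: exponential law and extension of null-homotopies.
-/

set_option autoImplicit false

open Set unitInterval Topology ContinuousMap Filter Metric

noncomputable section

namespace Pool.Agent.Lib.MP_9c2101_gt

universe u v w

/-- The `k`-th homotopy group vanishes. -/
def Nul (k : ℕ) (W : Type v) [TopologicalSpace W] (w : W) : Prop :=
  ∀ a : M (Fin k → I) (Cube.boundary (Fin k)) W w, Joined M.c a

theorem ext_sub {α V : Type*} [TopologicalSpace α] [TopologicalSpace V] {s : Set α} (G : C(s, V))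
    (v : V) : ∃ Y : α → V, ContinuousOn Y s ∧ ∀ x (h : x ∈ s), Y x = G ⟨x, h⟩ := by
  classical
  have h1 : ∀ x (h : x ∈ s), (if h : x ∈ s then G ⟨x, h⟩ else v) = G ⟨x, h⟩ := fun x h => dif_pos h
  exact ⟨fun x => if h : x ∈ s then G ⟨x, h⟩ else v, continuousOn_iff_continuous_domRestrict.2
    (G.continuous.congr fun x => (h1 x.1 x.2).symm), h1⟩

section ball

variable {W : Type v} [TopologicalSpace W] {w : W}

theorem hep {E : Type} [NormedAddCommGroup E] [NormedSpace ℝ E] (u : E → W)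
    (hu : ContinuousOn u (closedBall 0 1)) (y : E → C(I, W)) (hy : ContinuousOn y (sphere 0 1))
    (h0 : ∀ x ∈ sphere (0 : E) 1, y x 0 = u x) :
    ∃ A : C(closedBall (0 : E) 1 × I, W), (∀ x, A (x, 0) = u x) ∧
      ∀ x t, x.1 ∈ sphere (0 : E) 1 → A (x, t) = y x t := by
  have hp : ∀ t : I, (0 : ℝ) < 2 - t := fun t => by linarith [t.2.2]
  have hn : ∀ z : closedBall (0 : E) 1 × I, (2 - z.2) / 2 ≤ ‖z.1.1‖ → ‖z.1.1‖ ≠ 0 := fun z hz =>
    (show 0 < ‖z.1.1‖ by linarith [hp z.2]).ne'
  have hs : ∀ x : E, ‖x‖ ≠ 0 → ‖x‖⁻¹ • x ∈ sphere (0 : E) 1 := fun x hx => by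
    simp [norm_smul, hx]
  refine ⟨⟨fun z => if ‖z.1.1‖ ≤ (2 - z.2) / 2 then u ((2 / (2 - z.2) : ℝ) • z.1.1)
    else y (‖z.1.1‖⁻¹ • z.1.1) (projIcc 0 1 zero_le_one (2 - (2 - z.2) / ‖z.1.1‖)), ?_⟩,
    fun x => ?_, fun x t hx => ?_⟩
  · have hd : Continuous fun z : closedBall (0 : E) 1 × I => (2 / (2 - z.2) : ℝ) :=
      Continuous.div (by fun_prop) (by fun_prop) fun z => (hp z.2).ne'
    have he : Continuous fun z : closedBall (0 : E) 1 × I => (2 / (2 - z.2) : ℝ) • z.1.1 :=
      hd.smul (by fun_prop)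
    refine continuous_if_le (by fun_prop) (by fun_prop)
      (hu.comp he.continuousOn fun z hz => ?_) ?_ ?_
    · rw [mem_closedBall_zero_iff, norm_smul, Real.norm_of_nonneg (div_pos two_pos (hp _)).le,
        div_mul_eq_mul_div, div_le_one (hp _)]
      have : ‖z.1.1‖ ≤ (2 - z.2) / 2 := hz
      linarith
    · refine continuous_eval.comp_continuousOn (ContinuousOn.prodMk
        (hy.comp ?_ fun z hz => hs _ (hn z hz)) ((continuous_projIcc (h := zero_le_one)).comp_continuousOn ?_))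
      · exact (ContinuousOn.inv₀ (by fun_prop) hn).smul (by fun_prop)
      · exact continuousOn_const.sub (ContinuousOn.div (by fun_prop) (by fun_prop) hn)
    · intro z hz
      have h1 : (2 - (2 - z.2) / ‖z.1.1‖ : ℝ) = 0 := by
        rw [hz]; field_simp [(hp z.2).ne']; ring
      have h2 : (2 / (2 - z.2) : ℝ) = ‖z.1.1‖⁻¹ := by rw [hz, inv_div]
      rw [h1, h2, projIcc_left]
      exact (h0 _ (hs _ (hn z hz.ge))).symm
  · have : ‖x.1‖ ≤ 1 := mem_closedBall_zero_iff.1 x.2
    simp [this]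
  · have hx1 : ‖x.1‖ = 1 := mem_sphere_zero_iff_norm.1 hx
    simp only [ContinuousMap.coe_mk, hx1]
    split_ifs with h
    · have : t = 0 := Subtype.ext (by have := t.2.1; simp only [Icc.coe_zero]; linarith)
      subst this
      simp [h0 _ hx]
    · simp

theorem cell_ext {k : ℕ} (hN : Nul k W w) (τ : I) (hτ : (τ : ℝ) < 1) (u : (Fin k → ℝ) → W)
    (hu : ContinuousOn u (closedBall 0 1)) (y : (Fin k → ℝ) → C(I, W))
    (hy : ContinuousOn y (sphere 0 1)) (h0 : ∀ x ∈ sphere (0 : Fin k → ℝ) 1, y x 0 = u x)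
    (h1 : ∀ x ∈ sphere (0 : Fin k → ℝ) 1, ∀ t : I, τ ≤ t → y x t = w) :
    ∃ Y : (Fin k → ℝ) → C(I, W), ContinuousOn Y (closedBall 0 1) ∧
      (∀ x ∈ sphere (0 : Fin k → ℝ) 1, Y x = y x) ∧ ∀ x ∈ closedBall (0 : Fin k → ℝ) 1,
        Y x 0 = u x ∧ ∀ t : I, ((τ : ℝ) + 1) / 2 ≤ t → Y x t = w := by
  classical
  obtain ⟨A, hA0, hA⟩ := hep u hu y hy h0
  let c : (Fin k → I) → closedBall (0 : Fin k → ℝ) 1 := fun v => ⟨fun i => 2 * v i - 1, by
    rw [mem_closedBall_zero_iff, pi_norm_le_iff_of_nonneg zero_le_one]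
    intro i
    rw [Real.norm_eq_abs, abs_le]
    constructor <;> linarith [(v i).2.1, (v i).2.2]⟩
  have hc : Continuous c := by fun_prop
  let d : closedBall (0 : Fin k → ℝ) 1 → (Fin k → I) := fun x i =>
    projIcc 0 1 zero_le_one ((x.1 i + 1) / 2)
  have hd : Continuous d := continuous_pi fun i => continuous_projIcc.comp
    ((((continuous_apply i).comp continuous_subtype_val).add continuous_const).div_const _)
  have hb : ∀ (x : closedBall (0 : Fin k → ℝ) 1) i, -1 ≤ x.1 i ∧ x.1 i ≤ 1 := fun x i =>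
    abs_le.1 ((norm_le_pi_norm x.1 i).trans (mem_closedBall_zero_iff.1 x.2))
  have hdv : ∀ x i, (d x i : ℝ) = (x.1 i + 1) / 2 := fun x i => by
    simp only [d]
    rw [projIcc_of_mem _ ⟨by linarith [hb x i], by linarith [hb x i]⟩]
  have hcd : ∀ x, c (d x) = x := fun x => Subtype.ext (funext fun i => by
    simp only [c, hdv]; ring)
  have hcs : ∀ v ∈ Cube.boundary (Fin k), (c v).1 ∈ sphere (0 : Fin k → ℝ) 1 := by
    rintro v ⟨i, hi⟩
    refine mem_sphere_zero_iff_norm.2 (le_antisymm (mem_closedBall_zero_iff.1 (c v).2) ?_)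
    refine le_trans ?_ (norm_le_pi_norm (c v).1 i)
    rcases hi with hi | hi <;> norm_num [c, hi]
  have hds : ∀ x : closedBall (0 : Fin k → ℝ) 1, x.1 ∈ sphere (0 : Fin k → ℝ) 1 →
      d x ∈ Cube.boundary (Fin k) := by
    intro x hx
    by_contra hcon
    refine absurd (mem_sphere_zero_iff_norm.1 hx) (ne_of_lt ((pi_norm_lt_iff one_pos).2 fun i => ?_))
    rw [Real.norm_eq_abs, abs_lt]
    constructor
    · refine lt_of_le_of_ne (hb x i).1 fun h => hcon ⟨i, Or.inl (Subtype.ext ?_)⟩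
      rw [hdv, ← h]; simp
    · refine lt_of_le_of_ne (hb x i).2 fun h => hcon ⟨i, Or.inr (Subtype.ext ?_)⟩
      rw [hdv, h]; simp
  obtain ⟨γ⟩ := hN ⟨⟨fun v => A (c v, τ), by fun_prop⟩, fun v hv =>
    (hA _ _ (hcs v hv)).trans (h1 _ (hcs v hv) τ le_rfl)⟩
  have hγ := unc1 (expLaw_of_lc _) γ γ.continuous
  let s : I → I := fun t => projIcc 0 1 zero_le_one (1 - (t - τ) * 2 / (1 - τ))
  have hs : Continuous s := continuous_projIcc.comp (by fun_prop)
  have hG : Continuous fun z : closedBall (0 : Fin k → ℝ) 1 × I =>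
      if z.2 ≤ τ then A z else (γ (s z.2)).1 (d z.1) := by
    refine Continuous.if_le A.continuous (hγ.comp (f := fun z : closedBall (0 : Fin k → ℝ) 1 × I =>
      (s z.2, d z.1)) (by fun_prop)) continuous_snd continuous_const fun z hz => ?_
    have : s z.2 = 1 := by
      simp only [s, hz, sub_self, zero_mul, zero_div, sub_zero, projIcc_right]
      rfl
    rw [this, γ.target]
    change _ = A (c (d z.1), τ)
    rw [hcd, ← hz]
  let G : C(closedBall (0 : Fin k → ℝ) 1 × I, W) := ⟨_, hG⟩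
  obtain ⟨Y, hY1, hY2⟩ := ext_sub G.curry (const I w)
  refine ⟨Y, hY1, fun x hx => ?_, fun x hx => ⟨?_, fun t ht => ?_⟩⟩
  · rw [hY2 x (sphere_subset_closedBall hx)]
    ext t
    change (if t ≤ τ then _ else _) = _
    split_ifs with h
    · exact hA _ _ hx
    · exact ((γ _).2 _ (hds _ hx)).trans (h1 x hx t (le_of_not_ge h)).symm
  · rw [hY2 x hx]
    change (if (0 : I) ≤ τ then _ else _) = _
    rw [if_pos nonneg']
    exact hA0 _
  · rw [hY2 x hx]
    change (if t ≤ τ then _ else _) = _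
    have h2 : ¬ t ≤ τ := fun h => by
      have : (t : ℝ) ≤ τ := h
      linarith
    have h3 : s t = 0 := projIcc_of_le_left _ (by
      rw [sub_nonpos, one_le_div (by linarith)]; linarith)
    rw [if_neg h2, h3, γ.source]
    rfl

end ball

section cw

open RelCWComplex

variable {X : Type u} [TopologicalSpace X] [T2Space X] [CWComplex (univ : Set X)]

theorem contOn_skel {V : Type w} [TopologicalSpace V] (f : X → V) (k : ℕ∞)
    (h : ∀ m : ℕ, (m : ℕ∞) < k → ∀ i : cell (univ : Set X) m,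
      ContinuousOn (fun x => f (map m i x)) (closedBall 0 1)) :
    ContinuousOn f (skeletonLT (univ : Set X) k) := by
  refine continuousOn_iff_isClosed.2 fun t ht => ⟨f ⁻¹' t ∩ skeletonLT (univ : Set X) k, ?_, by simp⟩
  refine CWComplex.isClosed_of_disjoint_openCell_or_isClosed_inter_closedCell (C := univ)
    (subset_univ _) fun m _ i => ?_
  rcases lt_or_ge (m : ℕ∞) k with hm | hm
  · right
    have h1 : closedCell m i ⊆ skeletonLT (univ : Set X) k :=
      (closedCell_subset_skeletonLT m i).trans (skeletonLT_mono (Order.add_one_le_of_lt hm))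
    have h2 : f ⁻¹' t ∩ skeletonLT (univ : Set X) k ∩ closedCell m i =
        map m i '' (closedBall 0 1 ∩ (fun x => f (map m i x)) ⁻¹' t) := by
      rw [inter_assoc, inter_eq_right.2 h1]
      ext x
      constructor
      · rintro ⟨hx, v, hv, rfl⟩
        exact ⟨v, ⟨hv, hx⟩, rfl⟩
      · rintro ⟨v, ⟨hv, hx⟩, rfl⟩
        exact ⟨hx, v, hv, rfl⟩
    rw [h2]
    exact (((isCompact_closedBall _ _).of_isClosed_subset
      ((h m hm i).preimage_isClosed_of_isClosed isClosed_closedBall ht)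
      inter_subset_left).image_of_continuousOn
      ((continuousOn m i).mono inter_subset_left)).isClosed
  · exact Or.inl ((disjoint_skeletonLT_openCell hm).mono_left inter_subset_right)

theorem cont_cw {V : Type w} [TopologicalSpace V] (f : X → V)
    (h : ∀ (m : ℕ) (i : cell (univ : Set X) m),
      ContinuousOn (fun x => f (map m i x)) (closedBall 0 1)) : Continuous f := by
  have := contOn_skel f ⊤ fun m _ i => h m i
  rwa [skeletonLT_top, continuousOn_univ] at this

theorem expLaw_cw : ExpLaw.{u, v} X := by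
  intro W _ S hS
  let f : X → C(I × I, W) := fun x => ⟨fun z => S z x, by fun_prop⟩
  have hf : Continuous f := by
    refine cont_cw f fun m i => continuousOn_iff_continuous_domRestrict.2 ?_
    let Φ : C(closedBall (0 : Fin m → ℝ) 1, X) :=
      ⟨_, continuousOn_iff_continuous_domRestrict.1 (continuousOn m i)⟩
    have h1 : Continuous fun z => (S z).comp Φ := (continuous_precomp Φ).comp hS
    exact ContinuousMap.continuous_of_continuous_uncurry _
      (show Continuous fun q : closedBall (0 : Fin m → ℝ) 1 × (I × I) => (S q.2).comp Φ q.1 from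
        (h1.comp continuous_snd).eval continuous_fst)
  exact (hf.comp continuous_snd).eval continuous_fst

variable {W : Type v} [TopologicalSpace W] {w : W}

/-- A null-homotopy of `u` on a skeleton, stationary from the time `s.2` on. -/
def Good (w : W) (u : C(X, W)) (k : ℕ) (s : (X → C(I, W)) × I) : Prop :=
  (s.2 : ℝ) < 1 ∧ ContinuousOn s.1 (skeletonLT (univ : Set X) k) ∧
    ∀ x ∈ (skeletonLT (univ : Set X) k : Set X), s.1 x 0 = u x ∧ ∀ t, s.2 ≤ t → s.1 x t = w

theorem good_step {k : ℕ} (hN : Nul k W w) (u : C(X, W)) (s : (X → C(I, W)) × I)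
    (hs : Good w u k s) : ∃ s', Good w u (k + 1) s' ∧
      ∀ x ∈ (skeletonLT (univ : Set X) k : Set X), s'.1 x = s.1 x := by
  classical
  obtain ⟨y, τ⟩ := s
  obtain ⟨hτ, hy, hv⟩ := hs
  have hfr : ∀ (i : cell (univ : Set X) k), ∀ x ∈ sphere (0 : Fin k → ℝ) 1,
      map k i x ∈ (skeletonLT (univ : Set X) k : Set X) := fun i x hx =>
    cellFrontier_subset_skeletonLT k i ⟨x, hx, rfl⟩
  choose Y hY1 hY2 hY3 using fun i : cell (univ : Set X) k => cell_ext hN τ hτ
    (fun x => u (map k i x)) (u.continuous.comp_continuousOn (continuousOn k i))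
    (fun x => y (map k i x))
    (hy.comp ((continuousOn k i).mono sphere_subset_closedBall) (hfr i))
    (fun x hx => (hv _ (hfr i x hx)).1) fun x hx => (hv _ (hfr i x hx)).2
  let y' : X → C(I, W) := fun x =>
    if h : ∃ i : cell (univ : Set X) k, x ∈ openCell k i then
      Y h.choose ((map k h.choose).symm x) else y x
  have ha : ∀ x ∈ (skeletonLT (univ : Set X) k : Set X), y' x = y x := fun x hx =>
    dif_neg fun ⟨i, hi⟩ => disjoint_left.1 (disjoint_skeletonLT_openCell le_rfl) hx hi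
  have hb : ∀ i, ∀ x ∈ closedBall (0 : Fin k → ℝ) 1, y' (map k i x) = Y i x := by
    intro i x hx
    rcases (mem_closedBall.1 hx).lt_or_eq with h | h
    · have h1 : ∃ j : cell (univ : Set X) k, map k i x ∈ openCell k j := ⟨i, x, h, rfl⟩
      have h2 : h1.choose = i := by
        by_contra hne
        exact disjoint_left.1 (disjoint_openCell_of_ne (by simpa using hne)) h1.choose_spec
          (⟨x, h, rfl⟩ : map k i x ∈ openCell k i)
      simp only [y', dif_pos h1, h2]
      rw [(map k i).left_inv (by rw [source_eq]; exact h)]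
    · rw [ha _ (hfr i x h), hY2 i x h]
  have hτ0 := τ.2.1
  have hlow : ∀ m : ℕ, m < k → ∀ i : cell (univ : Set X) m,
      closedCell m i ⊆ (skeletonLT (univ : Set X) k : Set X) := fun m hm i =>
    (closedCell_subset_skeletonLT m i).trans (skeletonLT_mono (by exact_mod_cast hm))
  refine ⟨(y', ⟨(τ + 1) / 2, by constructor <;> linarith⟩), ⟨by simp only; linarith,
    contOn_skel _ _ fun m hm i => ?_, fun x hx => ?_⟩, ha⟩
  · rcases (Nat.lt_succ_iff.1 (by exact_mod_cast hm : m < k + 1)).lt_or_eq with h | rfl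
    · exact (hy.comp (continuousOn m i) fun x hx => hlow m h i ⟨x, hx, rfl⟩).congr
        fun x hx => ha _ (hlow m h i ⟨x, hx, rfl⟩)
    · exact (hY1 i).congr (hb i)
  · obtain ⟨m, hm, i, hi⟩ := CWComplex.mem_skeletonLT_iff.1 hx
    rcases (Nat.lt_succ_iff.1 (by exact_mod_cast hm : m < k + 1)).lt_or_eq with h | rfl
    · have h1 := hlow m h i (openCell_subset_closedCell m i hi)
      simp only [ha x h1]
      refine ⟨(hv x h1).1, fun t ht => (hv x h1).2 t ?_⟩
      have : ((τ : ℝ) + 1) / 2 ≤ t := ht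
      exact show (τ : ℝ) ≤ t by linarith
    · obtain ⟨v, hv', rfl⟩ := hi
      simp only [hb i v (ball_subset_closedBall hv')]
      exact hY3 i v (ball_subset_closedBall hv')

theorem cw_null (n : ℕ) (hN : ∀ k, n ≤ k → Nul k W w) (u : C(X, W)) (y : X → C(I, W))
    (hy : ContinuousOn y (skeletonLT (univ : Set X) n))
    (h : ∀ x ∈ (skeletonLT (univ : Set X) n : Set X), y x 0 = u x ∧ y x 1 = w) {x0 : X}
    (hx : x0 ∈ (skeletonLT (univ : Set X) n : Set X)) (hx0 : ∀ t, y x0 t = w) :
    u.HomotopicRel (const X w) {x0} := by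
  let ρ : C(I, I) := ⟨fun t => projIcc 0 1 zero_le_one (2 * t), continuous_projIcc.comp (by fun_prop)⟩
  have h0 : Good w u n (fun x => (y x).comp ρ, ⟨1 / 2, by constructor <;> norm_num⟩) := by
    refine ⟨by norm_num, (continuous_precomp ρ).comp_continuousOn hy, fun x hx => ⟨?_, fun t ht => ?_⟩⟩
    · have : ρ 0 = 0 := by simp [ρ]
      simpa [this] using (h x hx).1
    · have h1 : (1 / 2 : ℝ) ≤ t := ht
      have : ρ t = 1 := projIcc_of_right_le zero_le_one (by linarith)
      simpa [this] using (h x hx).2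
  choose st hst1 hst2 using fun (m : ℕ) (s : (X → C(I, W)) × I) (hs : Good w u (n + m) s) =>
    good_step (hN (n + m) (Nat.le_add_right n m)) u s hs
  let q : ∀ m, {s // Good w u (n + m) s} := fun m =>
    Nat.rec ⟨_, h0⟩ (fun m s => ⟨st m s.1 s.2, hst1 m s.1 s.2⟩) m
  have hq : ∀ m m', m ≤ m' → ∀ x ∈ (skeletonLT (univ : Set X) (n + m : ℕ) : Set X),
      (q m').1.1 x = (q m).1.1 x := by
    intro m m' hm x hx
    induction m', hm using Nat.le_induction with
    | base => rfl
    | succ m' hm ih =>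
      exact (hst2 m' _ (q m').2 x (skeletonLT_mono (by exact_mod_cast Nat.add_le_add_left hm n)
        hx)).trans ih
  have hcell : ∀ (m : ℕ) (i : cell (univ : Set X) m),
      closedCell m i ⊆ (skeletonLT (univ : Set X) (n + (m + 1) : ℕ) : Set X) := fun m i =>
    (closedCell_subset_skeletonLT m i).trans (skeletonLT_mono (by exact_mod_cast Nat.le_add_left _ _))
  have hex : ∀ x : X, ∃ m : ℕ, x ∈ (skeletonLT (univ : Set X) (n + m : ℕ) : Set X) := fun x => by
    have : x ∈ ⋃ (m : ℕ) (i : cell (univ : Set X) m), closedCell m i := by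
      rw [CWComplex.union]; trivial
    simp only [mem_iUnion] at this
    obtain ⟨m, i, hi⟩ := this
    exact ⟨m + 1, hcell m i hi⟩
  choose d hd using hex
  let Y : X → C(I, W) := fun x => (q (d x)).1.1 x
  have hY : ∀ m, ∀ x ∈ (skeletonLT (univ : Set X) (n + m : ℕ) : Set X), Y x = (q m).1.1 x :=
    fun m x hx => (hq _ _ (le_max_left _ m) x (hd x)).symm.trans (hq _ _ (le_max_right _ m) x hx)
  have hc : Continuous Y := cont_cw Y fun m i =>
    ((q (m + 1)).2.2.1.comp (continuousOn m i) fun x hx => hcell m i ⟨x, hx, rfl⟩).congr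
      fun x hx => hY _ _ (hcell m i ⟨x, hx, rfl⟩)
  refine ⟨⟨⟨⟨fun z => Y z.2 z.1, by fun_prop⟩, fun x => ((q (d x)).2.2.2 x (hd x)).1,
    fun x => ((q (d x)).2.2.2 x (hd x)).2 1 le_one'⟩, fun t x hx' => ?_⟩⟩
  obtain rfl : x = x0 := hx'
  change Y x t = _
  rw [hY 0 x hx, ← (h x hx).1, hx0]
  exact hx0 _

theorem null_of_ph (n : ℕ) (hN : ∀ k, n + 1 ≤ k → Nul k W w) (u : C(X, W)) {x0 : X}
    (hx : x0 ∈ sk X 0) (H : (u.restrict (sk X n)).HomotopicRel (const _ w) {x | x.1 = x0}) :
    u.HomotopicRel (const X w) {x0} := by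
  classical
  obtain ⟨H⟩ := H
  have e : (skeletonLT (univ : Set X) (n + 1 : ℕ) : Set X) = sk X n := by
    rw [Nat.cast_add_one]; rfl
  have hx' : x0 ∈ sk X n := skeleton_mono (by simp) hx
  let G : C(sk X n × I, W) := ⟨fun z => H (z.2, z.1), by fun_prop⟩
  obtain ⟨Y, hY1, hY2⟩ := ext_sub G.curry (const I w)
  refine cw_null (n + 1) hN u Y (by rwa [e]) (fun x hx => ?_) (by rwa [e]) fun t => ?_
  · rw [e] at hx
    rw [hY2 x hx]
    exact ⟨H.apply_zero _, H.apply_one _⟩
  · rw [hY2 _ hx']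
    exact H.eq_snd t rfl

theorem null_of_all (hN : ∀ k, Nul k W w) (u : C(X, W)) {x0 : X} (hx : x0 ∈ sk X 0)
    (hu : u x0 = w) : u.HomotopicRel (const X w) {x0} := by
  classical
  have hp : ∀ x, ∃ γ : C(I, W), γ 0 = u x ∧ γ 1 = w ∧ (x = x0 → ∀ t, γ t = w) := fun x => by
    by_cases h : x = x0
    · exact ⟨const I w, by rw [h, hu]; rfl, rfl, fun _ _ => rfl⟩
    · obtain ⟨γ⟩ := hN 0 ⟨const _ (u x), fun v hv => by simp [Cube.boundary] at hv⟩
      exact ⟨⟨fun t => (γ.symm t).1 default, by fun_prop⟩, M.ev γ.symm.source _,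
        M.ev γ.symm.target _, fun h' => absurd h' h⟩
  choose y h0 h1 h2 using hp
  refine cw_null 1 (fun k _ => hN k) u y (contOn_skel _ _ fun m hm i => ?_)
    (fun x _ => ⟨h0 x, h1 x⟩) (by simpa [sk, skeleton] using hx) (h2 x0 rfl)
  obtain rfl : m = 0 := by
    have : m < 1 := by exact_mod_cast hm
    omega
  exact continuous_of_discreteTopology.continuousOn

end cw

end Pool.Agent.Lib.MP_9c2101_gt
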