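import Pool.Agent.Lib.MP_9c2101_gt.CW

/-!
Algebra of path classes; vanishing of homotopy groups of homotopy fibres and homotopy limits.
-/

set_option autoImplicit false

open Set unitInterval Topology ContinuousMap Filter

noncomputable section

namespace Pool.Agent.Lib.MP_9c2101_gt

universe u v

section alg

open Path.Homotopic.Quotient

variable {P Q W : Type v} [TopologicalSpace P] [TopologicalSpace Q] [TopologicalSpace W]

/-- Classes of paths. -/
abbrev Cl (a b : P) : Type v := Path.Homotopic.Quotient a b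

/-- The class of a path. -/
abbrev cl {a b : P} (γ : Path a b) : Cl a b := Path.Homotopic.Quotient.mk γ

theorem cl_eq {a b : P} {γ γ' : Path a b} : cl γ = cl γ' ↔ γ.Homotopic γ' := eq

/-- The image of a path class. -/
def qm (e : C(P, Q)) {a b : P} {a' b' : Q} (ha : e a = a') (hb : e b = b') (x : Cl a b) :
    Cl a' b' := (x.map e).cast ha.symm hb.symm

@[simp] theorem cl_pm (e : C(P, Q)) {a b : P} {a' b' : Q} (ha : e a = a') (hb : e b = b')
    (γ : Path a b) : cl (pm e ha hb γ) = qm e ha hb (cl γ) := rfl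

theorem qm_trans (e : C(P, Q)) {a b c : P} {a' b' c' : Q} {ha : e a = a'} (hb : e b = b')
    {hc : e c = c'} (x : Cl a b) (y : Cl b c) :
    qm e ha hc (x.trans y) = (qm e ha hb x).trans (qm e hb hc y) := by
  induction x using Path.Homotopic.Quotient.ind with | mk x =>
  induction y using Path.Homotopic.Quotient.ind with | mk y =>
  exact congrArg cl (pm_trans e ha hb hc x y)

@[simp] theorem qm_symm (e : C(P, Q)) {a b : P} {a' b' : Q} (ha : e a = a') (hb : e b = b')
    (x : Cl a b) : qm e hb ha x.symm = (qm e ha hb x).symm := by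
  induction x using Path.Homotopic.Quotient.ind with | mk x => rfl

@[simp] theorem qm_refl (e : C(P, Q)) {a : P} {a' : Q} (ha : e a = a') :
    qm e ha ha (Path.Homotopic.Quotient.refl a) = Path.Homotopic.Quotient.refl a' := by
  subst ha; rfl

@[simp] theorem cancel1 {a b c : P} (x : Cl a b) (y : Cl a c) : x.trans (x.symm.trans y) = y := by
  rw [← trans_assoc, trans_symm, refl_trans]

@[simp] theorem cancel2 {a b c : P} (x : Cl a b) (y : Cl b c) : x.symm.trans (x.trans y) = y := by
  rw [← trans_assoc, symm_trans, refl_trans]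

@[simp] theorem symm_symm' {a b : P} (x : Cl a b) : x.symm.symm = x := by
  induction x using Path.Homotopic.Quotient.ind with | mk x => exact congrArg cl (Path.symm_symm x)

@[simp] theorem symm_refl' (a : P) : 
    (Path.Homotopic.Quotient.refl a).symm = Path.Homotopic.Quotient.refl a := rfl

@[simp] theorem symm_trans' {a b c : P} (x : Cl a b) (y : Cl b c) :
    (x.trans y).symm = y.symm.trans x.symm := by
  induction x using Path.Homotopic.Quotient.ind with | mk x =>
  induction y using Path.Homotopic.Quotient.ind with | mk y =>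
  exact congrArg cl (Path.trans_symm x y)

theorem cl_congr {a b : P} {γ γ' : Path a b} (h : ∀ t, γ t = γ' t) : cl γ = cl γ' :=
  congrArg cl (Path.ext (funext h))

theorem exists_tower_paths (V : ℕ → Type v) [∀ n, TopologicalSpace (V n)]
    (D : ∀ n, C(V (n + 1), V n)) (o g : ∀ n, V n) (hD : ∀ n, D n (o (n + 1)) = o n)
    (η : ∀ n, Path (D n (g (n + 1))) (g n)) (m : ℕ) (h1 : ∀ n, m ≤ n → Joined (o n) (g n))
    (h2 : ∀ n, m ≤ n → ∀ ℓ : Cl (o n) (o n), ℓ = cl (Path.refl _)) :
    ∃ N : ∀ n, Path (o n) (g n), ∀ n,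
      ((pm (D n) (hD n) rfl (N (n + 1))).trans (η n)).Homotopic ((Path.refl _).trans (N n)) := by
  have h3 : ∀ k n, m ≤ n + k → Joined (o n) (g n) := by
    intro k
    induction k with
    | zero => exact h1
    | succ k ih =>
      intro n hn
      obtain ⟨γ⟩ := ih (n + 1) (by omega)
      exact ⟨(pm (D n) (hD n) rfl γ).trans (η n)⟩
  let a : ℕ → ∀ n, Path (o n) (g n) := fun k => Nat.rec
    (fun n => (h3 m n (by omega)).somePath)
    (fun _ f n => (pm (D n) (hD n) rfl (f (n + 1))).trans (η n)) k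
  refine ⟨fun n => a (m - n) n, fun n => cl_eq.1 ?_⟩
  rcases lt_or_ge n m with h | h
  · have : m - n = (m - (n + 1)) + 1 := by omega
    simp only [this, mk_trans, mk_refl, refl_trans]
    rfl
  · have key : ∀ x y : Cl (o n) (g n), x = y := fun x y => by
      have := congrArg (fun z => z.trans y) (h2 n h (x.trans y.symm))
      simpa using this
    exact key _ _

end alg

section fib

variable {K : Type u} [TopologicalSpace K] {A : Set K} {P Q : Type v} [TopologicalSpace P]
  [TopologicalSpace Q] {p : P} {q : Q} {e : C(P, Q)} {h : e p = q}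

theorem fib_sq (hK : ExpLaw.{u, v} K) {f g : M K A (Fib e q) (base e h)} (Λ : Path f g)
    {a b : M K A P p} {a' b' : M K A Q q} (ha : fb f = a) (hb : fb g = b) (ha' : M.map e h a = a')
    (hb' : M.map e h b = b') (γ : Path M.c a') (γ' : Path M.c b') (hγ : ∀ t, fg f t = γ t)
    (hγ' : ∀ t, fg g t = γ' t) :
    cl γ' = (cl γ).trans (qm (M.map e h) ha' hb' (qm fb ha hb (cl Λ))) := by
  subst ha hb ha' hb'
  obtain rfl : fg f = γ := Path.ext (funext hγ)
  obtain rfl : fg g = γ' := Path.ext (funext hγ')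
  exact cl_eq.2 (fib_square hK Λ)

theorem fib_fl (hK : ExpLaw.{u, v} K) {f g : M K A (Fib e q) (base e h)}
    {a b : M K A P p} {a' b' : M K A Q q} (ha : fb f = a) (hb : fb g = b) (ha' : M.map e h a = a')
    (hb' : M.map e h b = b') (γ : Path M.c a') (γ' : Path M.c b') (hγ : ∀ t, fg f t = γ t)
    (hγ' : ∀ t, fg g t = γ' t) (ζ : Cl a b) (H : cl γ' = (cl γ).trans (qm (M.map e h) ha' hb' ζ)) :
    ∃ Λ : Path f g, qm fb ha hb (cl Λ) = ζ := by
  subst ha hb ha' hb'
  obtain rfl : fg f = γ := Path.ext (funext hγ)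
  obtain rfl : fg g = γ' := Path.ext (funext hγ')
  induction ζ using Path.Homotopic.Quotient.ind with | mk ζ =>
  obtain ⟨Λ, hΛ⟩ := fib_fill hK ζ (cl_eq.1 H)
  exact ⟨Λ, congrArg cl hΛ⟩

theorem fb_c : fb (M.c : M K A (Fib e q) (base e h)) = M.c := rfl

theorem fg_c (t : I) : fg (M.c : M K A (Fib e q) (base e h)) t = Path.refl M.c t := rfl

end fib

section cube

variable {P Q W : Type v} [TopologicalSpace P] [TopologicalSpace Q] [TopologicalSpace W]
  {p : P} {q : Q} {w : W} {k : ℕ}

/-- Generalized loops. -/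
abbrev Gn (k : ℕ) (W : Type v) [TopologicalSpace W] (w : W) : Type v :=
  M (Fin k → I) (Cube.boundary (Fin k)) W w

theorem cons_mem {t : I} {y : Fin k → I} (h : (t = 0 ∨ t = 1) ∨ y ∈ Cube.boundary (Fin k)) :
    (Fin.cons t y : Fin (k + 1) → I) ∈ Cube.boundary (Fin (k + 1)) := by
  rcases h with h | ⟨i, hi⟩
  · exact ⟨0, h⟩
  · exact ⟨i.succ, hi⟩

/-- A generalized loop as a loop of generalized loops. -/
def fromGL (L : Gn (k + 1) W w) : Path (M.c : Gn k W w) M.c :=
  mkP (fun z => L.1 (Fin.cons z.1 z.2)) (by fun_prop) (fun _ _ hx => L.2 _ (cons_mem (Or.inr hx)))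
    (fun _ => L.2 _ (cons_mem (Or.inl (Or.inl rfl)))) fun _ => L.2 _ (cons_mem (Or.inl (Or.inr rfl)))

theorem exists_GL (ℓ : Path (M.c : Gn k W w) M.c) : ∃ L : Gn (k + 1) W w, fromGL L = ℓ := by
  have hc := unc1 (expLaw_of_lc _) ℓ ℓ.continuous
  refine ⟨⟨⟨fun y => (ℓ (y 0)).1 (Fin.tail y),
    hc.comp (f := fun y : Fin (k + 1) → I => (y 0, Fin.tail y)) (by fun_prop)⟩, ?_⟩, ?_⟩
  · rintro y ⟨i, hi⟩
    change (ℓ (y 0)).1 (Fin.tail y) = w
    cases i using Fin.cases with
    | zero =>
      rcases hi with hi | hi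
      · rw [hi, ℓ.source]; rfl
      · rw [hi, ℓ.target]; rfl
    | succ i => exact (ℓ _).2 _ ⟨i, hi⟩
  · ext t y
    rfl

theorem fromGL_hom {L L' : Gn (k + 1) W w} (H : Joined L L') : cl (fromGL L) = cl (fromGL L') := by
  obtain ⟨Λ⟩ := H
  have hc := unc1 (expLaw_of_lc _) Λ Λ.continuous
  refine cl_eq.2 ⟨⟨⟨fam (fun z : (I × I) × (Fin k → I) => (Λ z.1.1).1 (Fin.cons z.1.2 z.2))
    (hc.comp (f := fun z : (I × I) × (Fin k → I) => (z.1.1, (Fin.cons z.1.2 z.2 : Fin (k + 1) → I)))
      (by fun_prop)) fun _ _ hx => (Λ _).2 _ (cons_mem (Or.inr hx)),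
    fun s => M.ext fun y => M.ev Λ.source _, fun s => M.ext fun y => M.ev Λ.target _⟩,
    fun t s hs => M.ext fun y => ?_⟩⟩
  exact ((Λ t).2 _ (cons_mem (Or.inl hs))).trans (L.2 _ (cons_mem (Or.inl hs))).symm

theorem loop_null (h : Nul (k + 1) W w) (ℓ : Cl (M.c : Gn k W w) M.c) :
    ℓ = cl (Path.refl _) := by
  induction ℓ using Path.Homotopic.Quotient.ind with | mk ℓ =>
  obtain ⟨L, rfl⟩ := exists_GL ℓ
  exact (fromGL_hom (h L)).symm

theorem nul_fib {e : C(P, Q)} {h : e p = q} (hi : Function.Injective (piMap k e h))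
    (hs : Function.Surjective (piMap (k + 1) e h)) : Nul k (Fib e q) (base e h) := by
  intro f
  have hK := expLaw_of_lc.{0, v} (Fin k → I)
  have h1 : piMap k e h (Quotient.mk _ (M.c : Gn k P p)) = piMap k e h (Quotient.mk _ (fb f)) :=
    Quotient.sound ⟨toRel hK ((fg f).cast (M.map_c e h) rfl)⟩
  obtain ⟨α⟩ := Quotient.exact (hi h1)
  let a : Path (M.c : Gn k P p) (fb f) := ofRel α
  obtain ⟨L, hL⟩ := exists_GL ((fg f).trans (pm (M.map e h) (M.map_c e h) rfl a).symm)
  obtain ⟨L', hL'⟩ := hs (Quotient.mk _ L)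
  induction L' using Quotient.ind with | _ L' =>
  obtain ⟨β⟩ := Quotient.exact hL'
  have h2 : cl (fromGL (M.map e h L')) = cl (fromGL L) :=
    fromGL_hom ⟨ofRel (f := M.map e h L') (g := L) β⟩
  have h3 : cl (fromGL (M.map e h L')) =
      qm (M.map e h) (M.map_c e h) (M.map_c e h) (cl (fromGL L')) := rfl
  obtain ⟨Λ, -⟩ := fib_fl hK (f := M.c) (g := f) fb_c rfl (M.map_c e h) rfl (Path.refl _) (fg f)
    fg_c (fun _ => rfl) ((cl (fromGL L')).trans (cl a)) (by
      rw [qm_trans _ (M.map_c e h), ← h3, h2, hL]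
      simp)
  exact ⟨Λ⟩

end cube

section holim

variable (G : ℕ → Type v) [∀ n, TopologicalSpace (G n)] (d : ∀ n, C(G (n + 1), G n))

/-- The homotopy limit of a tower. -/
abbrev Hol : Type v := {z : (∀ n, G n) × ∀ n, C(I, G n) //
  ∀ n, z.2 n 0 = d n (z.1 (n + 1)) ∧ z.2 n 1 = z.1 n}

variable {G d} {o : ∀ n, G n} (hd : ∀ n, d n (o (n + 1)) = o n)

/-- The base point of the homotopy limit. -/
def holBase : Hol G d := ⟨(o, fun n => const I (o n)), fun n => ⟨(hd n).symm, rfl⟩⟩

theorem nul_hol (k m : ℕ) (h : ∀ n, m ≤ n → Nul k (G n) (o n) ∧ Nul (k + 1) (G n) (o n)) :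
    Nul k (Hol G d) (holBase hd) := by
  intro a
  have hK := expLaw_of_lc.{0, v} (Fin k → I)
  let g : ∀ n, Gn k (G n) (o n) := fun n =>
    ⟨⟨fun x => (a.1 x).1.1 n, by fun_prop⟩, fun x hx =>
      congrArg (fun z : Hol G d => z.1.1 n) (a.2 x hx)⟩
  let η : ∀ n, Path (M.map (d n) (hd n) (g (n + 1))) (g n) := fun n =>
    mkP (fun z => (a.1 z.2).1.2 n z.1) (by fun_prop) 
      (fun t x hx => congrArg (fun z : Hol G d => z.1.2 n t) (a.2 x hx))
      (fun x => ((a.1 x).2 n).1) fun x => ((a.1 x).2 n).2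
  obtain ⟨N, hN⟩ := exists_tower_paths (fun n => Gn k (G n) (o n)) (fun n => M.map (d n) (hd n))
    (fun _ => M.c) g (fun n => M.map_c _ _) η m (fun n hn => (h n hn).1 _)
    fun n hn => loop_null (h n hn).2
  choose S h1 h2 h3 h4 using fun n => fill (hN n)
  have hS := fun n => unc2 hK (S n) (S n).continuous
  refine ⟨mkP (fun z => ⟨(fun n => (N n z.1).1 z.2, fun n => ⟨fun s => (S n (z.1, s)).1 z.2,
      (hS n).comp (f := fun s : I => ((z.1, s), z.2)) (by fun_prop)⟩),
      fun n => ⟨M.ev (h1 n z.1) z.2, M.ev (h4 n z.1) z.2⟩⟩)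
    (Continuous.subtype_mk (Continuous.prodMk
      (continuous_pi fun n => unc1 hK (N n) (N n).continuous)
      (continuous_pi fun n => ContinuousMap.continuous_of_continuous_uncurry _
        (show Continuous fun z : (I × (Fin k → I)) × I => (S n (z.1.1, z.2)).1 z.1.2 from
          (hS n).comp (f := fun z : (I × (Fin k → I)) × I => ((z.1.1, z.2), z.1.2))
            (by fun_prop)))) _)
    (fun t x hx => Subtype.ext (Prod.ext (funext fun n => (N n t).2 x hx)
      (funext fun n => ContinuousMap.ext fun s => (S n (t, s)).2 x hx)))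
    (fun x => Subtype.ext (Prod.ext (funext fun n => M.ev (N n).source x)
      (funext fun n => ContinuousMap.ext fun s => M.ev (h3 n s) x)))
    fun x => Subtype.ext (Prod.ext (funext fun n => M.ev (N n).target x)
      (funext fun n => ContinuousMap.ext fun s => M.ev (h2 n s) x))⟩

theorem joined_of_tower {X : Type u} [TopologicalSpace X] [T2Space X] [CWComplex (univ : Set X)]
    {x0 : X} (hx : x0 ∈ sk X 0) (h : ∀ n k, k ≤ n → Nul k (G n) (o n))
    (v : ∀ n, M X {x0} (G n) (o n)) (η : ∀ n, Path (M.map (d n) (hd n) (v (n + 1))) (v n)) :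
    Joined M.c (v 0) := by
  have hη := fun n => unc1 expLaw_cw (η n) (η n).continuous
  let u : C(X, Hol G d) := ⟨fun x => ⟨(fun n => (v n).1 x, fun n => ⟨fun s => (η n s).1 x,
      (hη n).comp (f := fun s : I => (s, x)) (by fun_prop)⟩),
      fun n => ⟨M.ev (η n).source x, M.ev (η n).target x⟩⟩,
    Continuous.subtype_mk (Continuous.prodMk (by fun_prop)
      (continuous_pi fun n => ContinuousMap.continuous_of_continuous_uncurry _
        (show Continuous fun z : X × I => (η n z.2).1 z.1 from (hη n).comp continuous_swap))) _⟩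
  obtain ⟨H⟩ := (null_of_all (fun k => nul_hol hd k (k + 1) fun n hn =>
    ⟨h n k (by omega), h n (k + 1) hn⟩) u hx (Subtype.ext (Prod.ext
      (funext fun n => (v n).2 x0 rfl)
      (funext fun n => ContinuousMap.ext fun s => (η n s).2 x0 rfl)))).symm.comp_continuousMap
    (⟨fun z => z.1.1 0, by fun_prop⟩ : C(Hol G d, G 0))
  exact ⟨ofRel (f := M.c) (g := v 0) H⟩

end holim

end Pool.Agent.Lib.MP_9c2101_gt
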