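import Mathlib

/-!
Definitions: loop spaces, homotopy fibres, Moore-Postnikov towers, relative phantom maps and the
ingredients of the map Theta.
-/

set_option autoImplicit false

open Set unitInterval Topology ContinuousMap

noncomputable section

namespace Pool.Agent.Lib.MP_9c2101_gt

universe u v

section basic

variable {X : Type u} {P Q W : Type v} [TopologicalSpace X] [TopologicalSpace P]
  [TopologicalSpace Q] [TopologicalSpace W]

/-- The image of a path under a map, with prescribed end points. -/
def pm (e : C(P, Q)) {a b : P} {a' b' : Q} (ha : e a = a') (hb : e b = b') (γ : Path a b) :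
    Path a' b' := (γ.map e.continuous).cast ha.symm hb.symm

/-- The loop map of a pointed map; the loop space of `W` at `w` is `Path w w`. -/
def loopMap (e : C(P, Q)) {p : P} {q : Q} (h : e p = q) : C(Path p p, Path q q) :=
  ⟨pm e h h, Path.continuous_uncurry_iff.1
    (e.continuous.comp (Path.continuous_uncurry_iff.2 continuous_id))⟩

/-- Pointwise product of two maps into a loop space (first loop first). -/
def mulL {w : W} (f g : C(X, Path w w)) : C(X, Path w w) :=
  ⟨fun x => (f x).trans (g x), f.continuous.path_trans g.continuous⟩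

/-- Pointwise inverse of a map into a loop space. -/
def invL {w : W} (f : C(X, Path w w)) : C(X, Path w w) :=
  ⟨fun x => (f x).symm, Path.continuous_symm.comp f.continuous⟩

/-- The homotopy fibre of `e` over `q`: pairs of a point `a` and a path from `q` to `e a`. -/
def Fib (e : C(P, Q)) (q : Q) : Type v := {z : P × C(I, Q) // z.2 0 = q ∧ z.2 1 = e z.1}

/-- The homotopy fibre has the subspace topology. -/
instance topFib (e : C(P, Q)) (q : Q) : TopologicalSpace (Fib e q) := instTopologicalSpaceSubtype

theorem cont_fst {e : C(P, Q)} {q : Q} : Continuous fun z : Fib e q => z.1.1 :=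
  continuous_fst.comp continuous_subtype_val

theorem cont_snd {e : C(P, Q)} {q : Q} : Continuous fun z : Fib e q => z.1.2 :=
  continuous_snd.comp continuous_subtype_val

/-- The connecting map from the loop space of the target to the homotopy fibre. -/
def delta (e : C(P, Q)) {p : P} {q : Q} (h : e p = q) : C(Path q q, Fib e q) :=
  ⟨fun ω => ⟨(p, ω.toContinuousMap), ω.source, ω.target.trans h.symm⟩,
    (continuous_const.prodMk continuous_induced_dom).subtype_mk _⟩

/-- The base point of the homotopy fibre. -/
def base (e : C(P, Q)) {p : P} {q : Q} (h : e p = q) : Fib e q := delta e h (Path.refl q)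

/-- The projection of the homotopy fibre. -/
def pr (e : C(P, Q)) (q : Q) : C(Fib e q, P) := ⟨fun z => z.1.1, cont_fst⟩

/-- The path component of a point of the homotopy fibre. -/
def Fib.path {e : C(P, Q)} {q : Q} (z : Fib e q) : Path q (e z.1.1) := ⟨z.1.2, z.2.1, z.2.2⟩

/-- The point of the homotopy fibre with given components. -/
def Fib.mk {e : C(P, Q)} {q : Q} (a : P) (γ : Path q (e a)) : Fib e q :=
  ⟨(a, γ.toContinuousMap), γ.source, γ.target⟩

/-- The loop map of the projection of the homotopy fibre. -/
def loopPr (e : C(P, Q)) {p : P} {q : Q} (h : e p = q) :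
    C(Path (base e h) (base e h), Path p p) := loopMap (pr e q) rfl

/-- The map of homotopy fibres induced by a map `d` over `Q`. -/
def fibDown {e : C(P, Q)} {e' : C(W, Q)} (d : C(W, P)) (h : ∀ a, e (d a) = e' a) (q : Q) :
    C(Fib e' q, Fib e q) :=
  ⟨fun a => ⟨(d a.1.1, a.1.2), a.2.1, a.2.2.trans (h _).symm⟩,
    ((d.continuous.comp cont_fst).prodMk cont_snd).subtype_mk _⟩

/-- The map of homotopy fibres induced by a map `j` and a homotopy `K` from `e'` to `e ∘ j`: the
path is prolonged along `K`. -/
def fibPush {e : C(P, Q)} {e' : C(W, Q)} {j : C(W, P)} (K : e'.Homotopy (e.comp j)) (q : Q) :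
    C(Fib e' q, Fib e q) :=
  ⟨fun a => Fib.mk (j (pr e' q a)) (a.path.trans (K.evalAt (pr e' q a))),
    Continuous.subtype_mk (Continuous.prodMk (j.continuous.comp cont_fst)
      (ContinuousMap.continuous_of_continuous_uncurry _
        (Path.trans_continuous_family (fun a : Fib e' q => a.path)
          ((cont_snd.comp continuous_fst).eval continuous_snd)
          (fun a : Fib e' q => K.evalAt a.1.1)
          (K.continuous.comp (continuous_snd.prodMk (cont_fst.comp continuous_fst)))))) _⟩

/-- The null-homotopy `H` followed by the reverse of the image of `H'` under `d`. -/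
def diffLoop (d : C(W, P)) {w : W} {p : P} {f : C(X, P)} {f' : C(X, W)} {S : Set X} (h : d w = p)
    (h' : ∀ x, d (f' x) = f x) (H : (const X p).HomotopyRel f S)
    (H' : (const X w).HomotopyRel f' S) : C(X, Path p p) :=
  ⟨fun x => (H.toHomotopy.evalAt x).trans (pm d h (h' x) (H'.toHomotopy.evalAt x)).symm,
    Path.continuous_uncurry_iff.1 (Path.trans_continuous_family (fun x => H.toHomotopy.evalAt x)
      (show Continuous fun q : X × I => H (q.2, q.1) by fun_prop)
      (fun x => (pm d h (h' x) (H'.toHomotopy.evalAt x)).symm)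
      (show Continuous fun q : X × I => d (H' (σ q.2, q.1)) by fun_prop))⟩

/-- The map induced on the `i`-th homotopy group (set of components for `i = 0`). -/
def piMap (i : ℕ) (e : C(P, Q)) {p : P} {q : Q} (h : e p = q) :
    HomotopyGroup.Pi i P p → HomotopyGroup.Pi i Q q :=
  Quotient.map (fun a => ⟨e.comp a.1, fun y hy => (congrArg e (a.2 y hy)).trans h⟩)
    fun _ _ H => HomotopicRel.comp_continuousMap H e

end basic

variable {B Y : Type v} [TopologicalSpace B] [TopologicalSpace Y]

/-- A pointed Moore-Postnikov tower of `φ`. The space `Z n` is the stage number `n + 1`. -/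
structure Tower (φ : C(B, Y)) (b0 : B) (y0 : Y) where
  Z : ℕ → Type v
  [top : ∀ n, TopologicalSpace (Z n)]
  z : ∀ n, Z n
  j : ∀ n, C(B, Z n)
  ψ : ∀ n, C(Z n, Y)
  p : ∀ n, C(Z (n + 1), Z n)
  jz : ∀ n, j n b0 = z n
  ψz : ∀ n, ψ n (z n) = y0
  pz : ∀ n, p n (z (n + 1)) = z n
  pj : ∀ n b, p n (j (n + 1) b) = j n b
  ψp : ∀ n a, ψ n (p n a) = ψ (n + 1) a
  K : ∀ n, φ.HomotopyRel ((ψ n).comp (j n)) {b0}
  Ks : ∀ n a, K (n + 1) a = K n a
  j_bij : ∀ n i, i < n + 1 → Function.Bijective (piMap i (j n) (jz n))
  j_surj : ∀ n, Function.Surjective (piMap (n + 1) (j n) (jz n))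
  ψ_bij : ∀ n i, n + 1 < i → Function.Bijective (piMap i (ψ n) (ψz n))
  ψ_inj : ∀ n, Function.Injective (piMap (n + 1) (ψ n) (ψz n))

attribute [instance] Tower.top

variable {X : Type u} [TopologicalSpace X]

section phantom

variable [T2Space X] [CWComplex (univ : Set X)]

/-- The `n`-skeleton. -/
def sk (X : Type u) [TopologicalSpace X] [T2Space X] [CWComplex (univ : Set X)] (n : ℕ) : Set X :=
  CWComplex.skeleton (univ : Set X) n

/-- `f` is a relative phantom map to `ψ`: on every skeleton it is homotopic rel `x0` to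
`ψ ∘ g` for a pointed map `g`. -/
def RelPh {A W : Type v} [TopologicalSpace A] [TopologicalSpace W] (x0 : X) (ψ : C(A, W)) (a0 : A)
    (f : C(X, W)) : Prop :=
  ∀ n, ∃ g : C(sk X n, A), (∀ x, x.1 = x0 → g x = a0) ∧
    (f.restrict (sk X n)).HomotopicRel (ψ.comp g) {x | x.1 = x0}

/-- `f` is a phantom map: on every skeleton it is homotopic rel `x0` to the constant map. -/
def Ph {W : Type v} [TopologicalSpace W] (x0 : X) (w0 : W) (f : C(X, W)) : Prop :=
  ∀ n, (f.restrict (sk X n)).HomotopicRel (const _ w0) {x | x.1 = x0}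

end phantom

namespace Tower

variable {φ : C(B, Y)} {b0 : B} {y0 : Y} (T : Tower φ b0 y0)

/-- The homotopy fibre of the `n`-th map to `Y`. -/
abbrev F (n : ℕ) : Type v := Fib (T.ψ n) y0

/-- Its base point. -/
abbrev o (n : ℕ) : T.F n := base (T.ψ n) (T.ψz n)

/-- The maps of the tower of homotopy fibres. -/
def down (n : ℕ) : C(T.F (n + 1), T.F n) := fibDown (T.p n) (T.ψp n) y0

/-- The map from the homotopy fibre of `φ` to the tower. -/
def push (n : ℕ) : C(Fib φ y0, T.F n) := fibPush (T.K n).toHomotopy y0

theorem down_o (n : ℕ) : T.down n (T.o (n + 1)) = T.o n :=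
  Subtype.ext (Prod.ext (T.pz n) rfl)

theorem down_push (n : ℕ) (a : Fib φ y0) : T.down n (T.push (n + 1) a) = T.push n a := by
  refine Subtype.ext (Prod.ext (T.pj n _) (ContinuousMap.ext fun t => ?_))
  change (a.path.trans _) t = (a.path.trans _) t
  rw [Path.trans_apply, Path.trans_apply]
  split_ifs
  · rfl
  · exact T.Ks n _

/-- `g` is a family of pointed lifts of `f` through the tower of loop spaces. -/
def Lifts (x0 : X) (f : C(X, Path y0 y0)) (g : ∀ n, C(X, Path (T.z n) (T.z n))) : Prop :=
  ∀ n, g n x0 = Path.refl _ ∧ ((loopMap (T.ψ n) (T.ψz n)).comp (g n)).HomotopicRel f {x0}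

/-- The maps of the tower of groups `[X, Ω Z n]`. -/
def res (n : ℕ) (g : C(X, Path (T.z (n + 1)) (T.z (n + 1)))) : C(X, Path (T.z n) (T.z n)) :=
  (loopMap (T.p n) (T.pz n)).comp g

/-- The representative of the connecting map in `lim^1 H`, computed from the lifts `g`. -/
def bd (g : ∀ n, C(X, Path (T.z n) (T.z n))) (n : ℕ) : C(X, Path (T.z n) (T.z n)) :=
  mulL (g n) (invL (T.res n (g (n + 1))))

/-- Families of pointed null-homotopies of the images of `u` in the tower of fibres. -/
def Nulls (x0 : X) (u : C(X, Fib φ y0)) : Type (max u v) :=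
  ∀ n, (const X (T.o n)).HomotopyRel ((T.push n).comp u) {x0}

/-- The representative of `u` in `lim^1 [X, Ω F n]` given by the Milnor sequence: the `n`-th
null-homotopy followed by the reverse of the image of the next one. -/
def milnor {x0 : X} {u : C(X, Fib φ y0)} (N : T.Nulls x0 u) (n : ℕ) : C(X, Path (T.o n) (T.o n)) :=
  diffLoop (T.down n) (T.down_o n) (fun x => T.down_push n (u x)) (N n) (N (n + 1))

/-- The map from `[X, Ω F n]` to `[X, Ω Z n]`, whose image is `H n`. -/
def toH (n : ℕ) (c : C(X, Path (T.o n) (T.o n))) : C(X, Path (T.z n) (T.z n)) :=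
  (loopPr (T.ψ n) (T.ψz n)).comp c

/-- `h` and `h'` have the same class in `lim^1 H`: some sequence of elements `c n` of `H n` has
`c n * h n * (p (c (n+1)))⁻¹ = h' n` in the groups of pointed homotopy classes. -/
def Lim1Eq (x0 : X) (h h' : ∀ n, C(X, Path (T.z n) (T.z n))) : Prop :=
  ∃ c : ∀ n, C(X, Path (T.o n) (T.o n)), (∀ n, c n x0 = Path.refl _) ∧ ∀ n,
    (mulL (mulL (T.toH n (c n)) (h n))
      (invL (T.res n (T.toH (n + 1) (c (n + 1)))))).HomotopicRel (h' n) {x0}

end Tower

end Pool.Agent.Lib.MP_9c2101_gt
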