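import Pool.Agent.Lib.MP_9c2101_gt.Conn

/-!
The comparison of the two connecting maps.
-/

set_option autoImplicit false

open Set unitInterval Topology ContinuousMap Filter

noncomputable section

namespace Pool.Agent.Lib.MP_9c2101_gt

universe u v

variable {X : Type u} [TopologicalSpace X] {x0 : X}

section loops

variable {P Q W : Type v} [TopologicalSpace P] [TopologicalSpace Q] [TopologicalSpace W]
  {p : P} {q : Q} {w : W}

/-- A pointed map as a point of the mapping space. -/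
def pt (f : C(X, W)) (h : f x0 = w) : M X {x0} W w := ⟨f, fun _ hx => by rw [hx]; exact h⟩

/-- The class of loops of pointed maps given by a pointed map to a loop space. -/
def L (g : C(X, Path w w)) (h : g x0 = Path.refl w) : Cl (M.c : M X {x0} W w) M.c :=
  cl (lp (pt g h))

theorem mul_pt {f g : C(X, Path w w)} (hf : f x0 = Path.refl w) (hg : g x0 = Path.refl w) :
    mulL f g x0 = Path.refl w := by
  change (f x0).trans (g x0) = _
  rw [hf, hg, Path.refl_trans_refl]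

theorem inv_pt {f : C(X, Path w w)} (hf : f x0 = Path.refl w) : invL f x0 = Path.refl w := by
  change (f x0).symm = _
  rw [hf, Path.refl_symm]

theorem map_pt (e : C(P, Q)) (h : e p = q) {f : C(X, Path p p)} (hf : f x0 = Path.refl p) :
    (loopMap e h).comp f x0 = Path.refl q := by
  ext t
  change e (f x0 t) = q
  rw [hf]; exact h

theorem L_mul {f g : C(X, Path w w)} (hf : f x0 = Path.refl w) (hg : g x0 = Path.refl w) :
    L (mulL f g) (mul_pt hf hg) = (L f hf).trans (L g hg) :=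
  cl_congr (γ' := (lp (pt f hf)).trans (lp (pt g hg))) fun t => M.ext fun x =>
    (trans_ev _ _ x (f x) (g x) (fun _ => rfl) (fun _ => rfl) t).symm

theorem L_inv {f : C(X, Path w w)} (hf : f x0 = Path.refl w) :
    L (invL f) (inv_pt hf) = (L f hf).symm := rfl

theorem L_map (e : C(P, Q)) (h : e p = q) {f : C(X, Path p p)} (hf : f x0 = Path.refl p) :
    L ((loopMap e h).comp f) (map_pt e h hf) =
      qm (M.map e h) (M.map_c e h) (M.map_c e h) (L f hf) := rfl

theorem L_eq (hK : ExpLaw.{u, v} X) {f g : C(X, Path w w)} (hf : f x0 = Path.refl w)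
    (hg : g x0 = Path.refl w) : f.HomotopicRel g {x0} ↔ L f hf = L g hg :=
  (lp_hom hK (pt f hf) (pt g hg)).trans cl_eq.symm

theorem exists_L (hK : ExpLaw.{u, v} X) (γ : Cl (M.c : M X {x0} W w) M.c) :
    ∃ (g : C(X, Path w w)) (h : g x0 = Path.refl w), L g h = γ := by
  induction γ using Path.Homotopic.Quotient.ind with | mk γ =>
  obtain ⟨g, hg⟩ := exists_lp hK γ
  exact ⟨g.1, g.2 x0 rfl, congrArg cl hg⟩

end loops

variable {B Y : Type v} [TopologicalSpace B] [TopologicalSpace Y] {φ : C(B, Y)} {b0 : B} {y0 : Y}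
  (hφ : φ b0 = y0) (T : Tower φ b0 y0)

theorem delta_pt {f : C(X, Path y0 y0)} (hf : f x0 = Path.refl y0) :
    (delta φ hφ).comp f x0 = base φ hφ := congrArg (delta φ hφ) hf

theorem K_eq (n : ℕ) (a : I × B) : T.K n a = T.K 0 a := by
  induction n with
  | zero => rfl
  | succ n ih => rw [T.Ks, ih]

include hφ in
theorem K_base (n : ℕ) (t : I) : T.K n (t, b0) = y0 := ((T.K n).eq_fst t rfl).trans hφ

theorem push_base (n : ℕ) : T.push n (base φ hφ) = T.o n := by
  refine Subtype.ext (Prod.ext (T.jz n) (ContinuousMap.ext fun t => ?_))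
  change ((base φ hφ).path.trans _) t = y0
  rw [Path.trans_apply]
  split_ifs
  · rfl
  · exact K_base hφ T n _

theorem nulF (n k : ℕ) (hk : n + 1 ≤ k) : Nul k (T.F n) (T.o n) := by
  refine nul_fib ?_ (T.ψ_bij n (k + 1) (by omega)).2
  rcases hk.lt_or_eq with h | rfl
  · exact (T.ψ_bij n k h).1
  · exact T.ψ_inj n

theorem nulG (n k : ℕ) (hk : k ≤ n) : Nul k (Fib (T.j n) (T.z n)) (base (T.j n) (T.jz n)) := by
  refine nul_fib (T.j_bij n k (by omega)).1 ?_
  rcases hk.lt_or_eq with h | rfl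
  · exact (T.j_bij n (k + 1) (by omega)).2
  · exact T.j_surj k

section core

variable (U : M X {x0} (Fib φ y0) (base φ hφ))

/-- The image of the first component in the `n`-th stage. -/
abbrev bz (n : ℕ) : M X {x0} (T.Z n) (T.z n) := M.map (T.j n) (T.jz n) (fb U)

/-- The common image in `Y`. -/
abbrev ey : M X {x0} Y y0 := M.map (T.ψ 0) (T.ψz 0) (bz hφ T U 0)

theorem ψ_bz (n : ℕ) : M.map (T.ψ n) (T.ψz n) (bz hφ T U n) = ey hφ T U :=
  M.ext fun _ => ((T.K n).apply_one _).symm.trans ((K_eq T n _).trans ((T.K 0).apply_one _))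

theorem p_bz (n : ℕ) : M.map (T.p n) (T.pz n) (bz hφ T U (n + 1)) = bz hφ T U n :=
  M.ext fun _ => T.pj n _

/-- The homotopy `K` along the first component. -/
def kap : Path (M.map φ hφ (fb U)) (ey hφ T U) :=
  mkP (fun z => T.K 0 (z.1, (U.1 z.2).1.1)) (by fun_prop)
    (fun t x hx => by rw [U.2 x hx]; exact K_base hφ T 0 t)
    (fun _ => (T.K 0).apply_zero _) fun _ => (T.K 0).apply_one _

theorem K_square (hK : ExpLaw.{u, v} X) (n : ℕ) (β : Cl M.c (fb U)) :
    qm (M.map (T.ψ n) (T.ψz n)) (M.map_c _ _) (ψ_bz hφ T U n)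
      (qm (M.map (T.j n) (T.jz n)) (M.map_c _ _) rfl β) =
      (qm (M.map φ hφ) (M.map_c _ _) rfl β).trans (cl (kap hφ T U)) := by
  induction β using Path.Homotopic.Quotient.ind with | mk β =>
  have hc := unc1 hK β β.continuous
  refine (Path.Homotopic.Quotient.refl_trans _).symm.trans (cl_eq.2 (square
    (α := pm (M.map φ hφ) (M.map_c _ _) rfl β) (γ := Path.refl _)
    (β := pm (M.map (T.ψ n) (T.ψz n)) (M.map_c _ _) (ψ_bz hφ T U n)
      (pm (M.map (T.j n) (T.jz n)) (M.map_c _ _) rfl β))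
    (fam (fun z : (I × I) × X => T.K n (z.1.2, (β z.1.1).1 z.2))
      ((T.K n).continuous.comp (Continuous.prodMk (by fun_prop)
        (hc.comp (f := fun z : (I × I) × X => (z.1.1, z.2)) (by fun_prop))))
      fun t x hx => by rw [(β t.1).2 x hx]; exact K_base hφ T n _)
    (fun t => M.ext fun x => ((T.K n).apply_zero _).symm) (fun s => M.ext fun x => ?_)
    (fun s => M.ext fun x => ?_) fun t => M.ext fun x => ((T.K n).apply_one _).symm)).symm
  · change _ = T.K n (s, (β 1).1 x)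
    rw [β.target, K_eq]; rfl
  · change _ = T.K n (s, (β 0).1 x)
    rw [β.source]; exact (K_base hφ T n s).symm

theorem p_j (n : ℕ) (β : Cl M.c (fb U)) :
    qm (M.map (T.p n) (T.pz n)) (M.map_c _ _) (p_bz hφ T U n)
      (qm (M.map (T.j (n + 1)) (T.jz (n + 1))) (M.map_c _ _) rfl β) =
      qm (M.map (T.j n) (T.jz n)) (M.map_c _ _) rfl β := by
  induction β using Path.Homotopic.Quotient.ind with | mk β =>
  exact cl_congr fun t => M.ext fun x => T.pj n _

variable (N : T.Nulls x0 U.1)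

/-- A null-homotopy as a path. -/
def nu (n : ℕ) : Path M.c (M.map (T.push n) (push_base hφ T n) U) := ofRel (N n)

/-- The projection of a null-homotopy. -/
def zz (n : ℕ) : Cl M.c (bz hφ T U n) := qm fb fb_c rfl (cl (nu hφ T U N n))

theorem ψ_zz (hK : ExpLaw.{u, v} X) (n : ℕ) :
    qm (M.map (T.ψ n) (T.ψz n)) (M.map_c _ _) (ψ_bz hφ T U n) (zz hφ T U N n) =
      (cl (fg U)).trans (cl (kap hφ T U)) :=
  ((fib_sq hK (nu hφ T U N n) fb_c rfl (M.map_c _ _) (ψ_bz hφ T U n) (Path.refl _)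
    ((fg U).trans (kap hφ T U)) fg_c fun t => M.ext fun x =>
      (trans_ev _ _ x (U.1 x).path ((T.K n).toHomotopy.evalAt (U.1 x).1.1) (fun _ => rfl)
        (fun _ => (K_eq T n _).symm) t).symm).trans (Path.Homotopic.Quotient.refl_trans _)).symm

theorem milnor_pt (n : ℕ) : T.milnor N n x0 = Path.refl _ := by
  ext1
  funext t
  change (((N n).toHomotopy.evalAt x0).trans _) t = _
  rw [Path.trans_apply]
  split_ifs
  · exact (N n).eq_fst _ rfl
  · exact (congrArg (T.down n) ((N (n + 1)).eq_fst _ rfl)).trans (T.down_o n)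

theorem L_milnor (n : ℕ) : L (T.toH n (T.milnor N n)) (map_pt _ rfl (milnor_pt hφ T U N n)) =
    (zz hφ T U N n).trans (qm (M.map (T.p n) (T.pz n)) (M.map_c _ _) (p_bz hφ T U n)
      (zz hφ T U N (n + 1))).symm := by
  refine cl_congr (γ' := (pm fb fb_c rfl (nu hφ T U N n)).trans
    (pm (M.map (T.p n) (T.pz n)) (M.map_c _ _) (p_bz hφ T U n)
      (pm fb fb_c rfl (nu hφ T U N (n + 1)))).symm) fun t => M.ext fun x => ?_
  change ((((N n).toHomotopy.evalAt x).trans _) t).1.1 = _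
  rw [Path.trans_apply, Path.trans_apply]
  split_ifs <;> rfl

theorem delta_iff (hK : ExpLaw.{u, v} X) {f : C(X, Path y0 y0)} (hf : f x0 = Path.refl y0) :
    U.1.HomotopicRel ((delta φ hφ).comp f) {x0} ↔ ∃ β : Cl M.c (fb U),
      cl (fg U) = (L f hf).trans (qm (M.map φ hφ) (M.map_c _ _) rfl β) := by
  constructor
  · intro H
    obtain ⟨H⟩ := H.symm
    exact ⟨_, fib_sq hK (ofRel (f := pt _ (delta_pt hφ hf)) (g := U) H) rfl rfl (M.map_c _ _) rfl
      (lp (pt f hf)) (fg U) (fun _ => rfl) fun _ => rfl⟩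
  · rintro ⟨β, hβ⟩
    obtain ⟨Λ, -⟩ := fib_fl hK (f := pt _ (delta_pt hφ hf)) (g := U) rfl rfl (M.map_c _ _) rfl
      (lp (pt f hf)) (fg U) (fun _ => rfl) (fun _ => rfl) β hβ
    exact HomotopicRel.symm ⟨toRel hK Λ⟩

theorem rel_iff (hK : ExpLaw.{u, v} X) {g : ∀ n, C(X, Path (T.z n) (T.z n))}
    (hg : ∀ n, g n x0 = Path.refl _) {c : ∀ n, C(X, Path (T.o n) (T.o n))}
    (hc : ∀ n, c n x0 = Path.refl _) (n : ℕ) :
    (mulL (mulL (T.toH n (c n)) (T.toH n (T.milnor N n)))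
      (invL ((loopMap (T.p n) (T.pz n)).comp (T.toH (n + 1) (c (n + 1)))))).HomotopicRel
      (T.bd g n) {x0} ↔
    ((qm fb fb_c fb_c (L (c n) (hc n))).trans ((zz hφ T U N n).trans
      (qm (M.map (T.p n) (T.pz n)) (M.map_c _ _) (p_bz hφ T U n) (zz hφ T U N (n + 1))).symm)).trans
      (qm (M.map (T.p n) (T.pz n)) (M.map_c _ _) (M.map_c _ _)
        (qm fb fb_c fb_c (L (c (n + 1)) (hc (n + 1))))).symm =
      (L (g n) (hg n)).trans (qm (M.map (T.p n) (T.pz n)) (M.map_c _ _) (M.map_c _ _)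
        (L (g (n + 1)) (hg (n + 1)))).symm := by
  have h0 : ∀ n, T.toH n (c n) x0 = Path.refl _ := fun n => map_pt _ rfl (hc n)
  have h1 := h0 n
  have h2 : T.toH n (T.milnor N n) x0 = Path.refl _ := map_pt _ rfl (milnor_pt hφ T U N n)
  have h3 := map_pt (T.p n) (T.pz n) (h0 (n + 1))
  have h4 := map_pt (T.p n) (T.pz n) (hg (n + 1))
  refine (L_eq hK (mul_pt (mul_pt h1 h2) (inv_pt h3)) (mul_pt (hg n) (inv_pt h4))).trans ?_
  rw [L_mul (mul_pt h1 h2) (inv_pt h3), L_mul h1 h2, L_mul (hg n) (inv_pt h4), ← L_milnor]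
  rfl

theorem lim_of_delta (hK : ExpLaw.{u, v} X) {f : C(X, Path y0 y0)} (hf : f x0 = Path.refl y0)
    {g : ∀ n, C(X, Path (T.z n) (T.z n))} (hg : T.Lifts x0 f g)
    (H : U.1.HomotopicRel ((delta φ hφ).comp f) {x0}) :
    T.Lim1Eq x0 (fun n => T.toH n (T.milnor N n)) (T.bd g) := by
  obtain ⟨β, hβ⟩ := (delta_iff hφ U hK hf).1 H
  have hG : ∀ n, qm (M.map (T.ψ n) (T.ψz n)) (M.map_c _ _) (M.map_c _ _) (L (g n) (hg n).1) =
      L f hf := fun n => (L_eq hK (map_pt _ _ (hg n).1) hf).1 (hg n).2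
  have key : ∀ n, ∃ (c : C(X, Path (T.o n) (T.o n))) (hc : c x0 = Path.refl _),
      qm fb fb_c fb_c (L c hc) = (L (g n) (hg n).1).trans
        ((qm (M.map (T.j n) (T.jz n)) (M.map_c _ _) rfl β).trans (zz hφ T U N n).symm) := by
    intro n
    obtain ⟨Λ, hΛ⟩ := fib_fl hK (e := T.ψ n) (h := T.ψz n) (f := M.c) (g := M.c) fb_c fb_c
      (M.map_c _ _) (M.map_c _ _) (Path.refl _) (Path.refl _) fg_c fg_c
      ((L (g n) (hg n).1).trans
        ((qm (M.map (T.j n) (T.jz n)) (M.map_c _ _) rfl β).trans (zz hφ T U N n).symm)) (by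
        rw [qm_trans _ (M.map_c _ _), qm_trans _ (ψ_bz hφ T U n), qm_symm, hG, ψ_zz hφ T U N hK,
          K_square hφ T U hK, hβ]
        simp)
    obtain ⟨c, hc, h⟩ := exists_L hK (cl Λ)
    exact ⟨c, hc, by rw [h, hΛ]⟩
  choose c hc h using key
  refine ⟨c, hc, fun n => (rel_iff hφ T U N hK (fun n => (hg n).1) hc n).2 ?_⟩
  rw [h, h, qm_trans _ (M.map_c _ _), qm_trans _ (p_bz hφ T U n), qm_symm, p_j]
  simp

/-- The tower of homotopy fibres of the maps from `B`. -/
def dG (n : ℕ) : C(Fib (T.j (n + 1)) (T.z (n + 1)), Fib (T.j n) (T.z n)) :=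
  ⟨fun a => ⟨(a.1.1, (T.p n).comp a.1.2), (congrArg (T.p n) a.2.1).trans (T.pz n),
      (congrArg (T.p n) a.2.2).trans (T.pj n _)⟩,
    Continuous.subtype_mk (Continuous.prodMk (by fun_prop)
      ((continuous_postcomp (T.p n)).comp (by fun_prop))) _⟩

theorem dG_base (n : ℕ) : dG T n (base (T.j (n + 1)) (T.jz (n + 1))) = base (T.j n) (T.jz n) :=
  Subtype.ext (Prod.ext rfl (ContinuousMap.ext fun _ => T.pz n))

theorem delta_of_lim [T2Space X] [CWComplex (univ : Set X)] (hx : x0 ∈ sk X 0)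
    {f : C(X, Path y0 y0)} (hf : f x0 = Path.refl y0)
    {g : ∀ n, C(X, Path (T.z n) (T.z n))} (hg : T.Lifts x0 f g)
    (H : T.Lim1Eq x0 (fun n => T.toH n (T.milnor N n)) (T.bd g)) :
    U.1.HomotopicRel ((delta φ hφ).comp f) {x0} := by
  have hK := expLaw_cw.{u, v} (X := X)
  obtain ⟨c, hc, H⟩ := H
  have hr := fun n => (rel_iff hφ T U N hK (fun n => (hg n).1) hc n).1 (H n)
  let y : ∀ n, Cl M.c (bz hφ T U n) := fun n => (L (g n) (hg n).1).symm.trans
    ((qm fb fb_c fb_c (L (c n) (hc n))).trans (zz hφ T U N n))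
  have hy : ∀ n, y n = qm (M.map (T.p n) (T.pz n)) (M.map_c _ _) (p_bz hφ T U n) (y (n + 1)) := by
    intro n
    have := congrArg (fun x => (L (g n) (hg n).1).symm.trans (x.trans
      ((qm (M.map (T.p n) (T.pz n)) (M.map_c _ _) (M.map_c _ _)
        (qm fb fb_c fb_c (L (c (n + 1)) (hc (n + 1))))).trans
      (qm (M.map (T.p n) (T.pz n)) (M.map_c _ _) (p_bz hφ T U n) (zz hφ T U N (n + 1)))))) (hr n)
    simp only [y]
    rw [qm_trans _ (M.map_c _ _), qm_trans _ (M.map_c _ _), qm_symm]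
    simpa using this
  choose y' hy' using fun n => Path.Homotopic.Quotient.mk_surjective (y n)
  choose v hv1 hv2 using fun n => exists_fib hK (e := T.j n) (h := T.jz n) (fb U) (y' n)
  have hη : ∀ n, Joined (M.map (dG T n) (dG_base T n) (v (n + 1))) (v n) := fun n => by
    obtain ⟨Λ, -⟩ := fib_fl hK (f := M.map (dG T n) (dG_base T n) (v (n + 1))) (g := v n)
      (a := fb U) (hv1 (n + 1)) (hv1 n) rfl rfl
      (pm (M.map (T.p n) (T.pz n)) (M.map_c _ _) (p_bz hφ T U n) (y' (n + 1))) (y' n)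
      (fun t => M.ext fun x => congrArg (T.p n) (M.ev (hv2 (n + 1) t) x)) (hv2 n)
      (cl (Path.refl _)) (by
        rw [cl_pm, cl, cl, hy', hy', ← hy]
        simp)
    exact ⟨Λ⟩
  obtain ⟨Λ⟩ := joined_of_tower (dG_base T) hx (fun n k hk => nulG T n k hk) v
    fun n => (hη n).somePath
  have h1 := fib_sq hK Λ fb_c (hv1 0) (M.map_c _ _) rfl (Path.refl _) (y' 0) fg_c (hv2 0)
  refine (delta_iff hφ U hK hf).2 ⟨qm fb fb_c (hv1 0) (cl Λ), ?_⟩
  have h2 := K_square hφ T U hK 0 (qm fb fb_c (hv1 0) (cl Λ))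
  have h3 : qm (M.map (T.j 0) (T.jz 0)) (M.map_c _ _) rfl (qm fb fb_c (hv1 0) (cl Λ)) = y 0 := by
    rw [← hy', ← cl, h1]
    simp
  have h4 : qm (M.map (T.ψ 0) (T.ψz 0)) (M.map_c _ _) (M.map_c _ _) (L (g 0) (hg 0).1) = L f hf :=
    (L_eq hK (map_pt _ _ (hg 0).1) hf).1 (hg 0).2
  have h5 := fib_sq hK (e := T.ψ 0) (h := T.ψz 0) (lp (pt (c 0) (hc 0))) fb_c fb_c (M.map_c _ _)
    (M.map_c _ _) (Path.refl _) (Path.refl _) fg_c fg_c
  have h6 : qm (M.map (T.ψ 0) (T.ψz 0)) (M.map_c _ _) (M.map_c _ _)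
      (qm fb fb_c fb_c (L (c 0) (hc 0))) = cl (Path.refl _) := by
    simpa [L] using h5.symm
  simp only [h3, y] at h2
  rw [qm_trans _ (M.map_c _ _), qm_trans _ (M.map_c _ _), qm_symm, h4, h6, ψ_zz hφ T U N hK] at h2
  simpa using congrArg (fun x => (L f hf).trans (x.trans (cl (kap hφ T U)).symm)) h2

end core

theorem lifts_of_nulls (hK : ExpLaw.{u, v} X) {f : C(X, Path y0 y0)} (hf : f x0 = Path.refl y0)
    (N : T.Nulls x0 ((delta φ hφ).comp f)) : ∃ g, T.Lifts x0 f g := by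
  have key : ∀ n, ∃ g : C(X, Path (T.z n) (T.z n)), g x0 = Path.refl _ ∧
      ((loopMap (T.ψ n) (T.ψz n)).comp g).HomotopicRel f {x0} := by
    intro n
    have h0 : fb (M.map (T.push n) (push_base hφ T n) (pt _ (delta_pt hφ hf))) = M.c :=
      M.ext fun _ => T.jz n
    have h1 := fib_sq hK (nu hφ T (pt _ (delta_pt hφ hf)) N n) fb_c h0 (M.map_c _ _) (M.map_c _ _) (Path.refl _)
      ((lp (pt f hf)).trans (Path.refl _)) fg_c fun t => M.ext fun x =>
        (trans_ev _ _ x (delta φ hφ (f x)).path ((T.K n).toHomotopy.evalAt b0) (fun _ => rfl)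
          (fun _ => (K_base hφ T n _).symm) t).symm
    obtain ⟨g, hg, h⟩ := exists_L hK (qm fb fb_c h0
      (cl (nu hφ T (pt _ (delta_pt hφ hf)) N n)))
    refine ⟨g, hg, (L_eq hK (map_pt _ _ hg) hf).2 ?_⟩
    rw [L_map _ _ hg, h]
    simpa [L] using h1.symm
  choose g h1 h2 using key
  exact ⟨g, fun n => ⟨h1 n, h2 n⟩⟩

variable [T2Space X] [CWComplex (univ : Set X)]

theorem ph_delta {f : C(X, Path y0 y0)} (h : RelPh x0 (loopMap φ hφ) (Path.refl b0) f) :
    Ph x0 (base φ hφ) ((delta φ hφ).comp f) := by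
  intro n
  obtain ⟨g, hg, H⟩ := h n
  refine (H.comp_continuousMap (delta φ hφ)).trans ⟨⟨⟨⟨fun z => ⟨(g z.2 (σ z.1),
    ⟨fun s => φ (g z.2 ⟨σ z.1 * s, mul_mem (σ z.1).2 s.2⟩), by fun_prop⟩), by simpa using hφ,
    congrArg (fun s => φ (g z.2 s)) (Subtype.ext (mul_one _))⟩,
    Continuous.subtype_mk (Continuous.prodMk (by fun_prop)
      (ContinuousMap.continuous_of_continuous_uncurry _ (show Continuous
        fun q : (I × sk X n) × I => φ (g q.1.2 ⟨σ q.1.1 * q.2, mul_mem (σ q.1.1).2 q.2.2⟩) by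
          fun_prop))) _⟩, fun x => ?_, fun x => ?_⟩, fun t x hx => ?_⟩⟩
  · exact Subtype.ext (Prod.ext (by simp [delta]) (ContinuousMap.ext fun s => by
      simp [delta, loopMap]))
  · exact Subtype.ext (Prod.ext (by simp [delta, base]) (ContinuousMap.ext fun s => by
      simpa [delta, base] using hφ))
  · exact Subtype.ext (Prod.ext (by simp [delta, hg x hx]) (ContinuousMap.ext fun s => by
      simp [delta, loopMap, hg x hx]))

theorem nulls_of_ph (hx : x0 ∈ sk X 0) {u : C(X, Fib φ y0)} (h : Ph x0 (base φ hφ) u) :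
    Nonempty (T.Nulls x0 u) := by
  refine ⟨fun n => (null_of_ph n (nulF T n) ((T.push n).comp u) hx ?_).symm.some⟩
  have := (h n).comp_continuousMap (T.push n)
  rwa [ContinuousMap.comp_const, push_base] at this

end Pool.Agent.Lib.MP_9c2101_gt
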