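import Pool.Agent.Lib.MP_9c2101_gt.Sq

/-!
Spaces of pointed maps, and the translation of homotopies into paths.
-/

set_option autoImplicit false

open Set unitInterval Topology ContinuousMap Filter

noncomputable section

namespace Pool.Agent.Lib.MP_9c2101_gt

universe u v

/-- Maps sending `A` to the base point, with the compact-open topology. -/
abbrev M (K : Type u) [TopologicalSpace K] (A : Set K) (W : Type v) [TopologicalSpace W] (w : W) :
    Type (max u v) := {f : C(K, W) // ∀ x ∈ A, f x = w}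

/-- The exponential law for squares of maps out of `K`. -/
def ExpLaw (K : Type u) [TopologicalSpace K] : Prop :=
  ∀ (W : Type v) [TopologicalSpace W] (S : I × I → C(K, W)), Continuous S →
    Continuous fun q : (I × I) × K => S q.1 q.2

theorem expLaw_of_lc (K : Type u) [TopologicalSpace K] [LocallyCompactSpace K] :
    ExpLaw.{u, v} K := fun _ _ S hS => by fun_prop

variable {K : Type u} [TopologicalSpace K] {A : Set K} {P Q W : Type v} [TopologicalSpace P]
  [TopologicalSpace Q] [TopologicalSpace W] {p : P} {q : Q} {w : W}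

theorem M.ext {f g : M K A W w} (h : ∀ x, f.1 x = g.1 x) : f = g :=
  Subtype.ext (ContinuousMap.ext h)

theorem M.ev {f g : M K A W w} (h : f = g) (x : K) : f.1 x = g.1 x := by rw [h]

/-- The constant map. -/
def M.c : M K A W w := ⟨const K w, fun _ _ => rfl⟩

/-- Composition with a pointed map. -/
def M.map (e : C(P, Q)) (h : e p = q) : C(M K A P p, M K A Q q) :=
  ⟨fun f => ⟨e.comp f.1, fun x hx => (congrArg e (f.2 x hx)).trans h⟩,
    ((continuous_postcomp e).comp continuous_subtype_val).subtype_mk _⟩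

theorem M.map_c (e : C(P, Q)) (h : e p = q) : M.map (K := K) (A := A) e h M.c = M.c :=
  M.ext fun _ => h

/-- A continuous family of pointed maps from a jointly continuous function. -/
def fam {L : Type} [TopologicalSpace L] (H : L × K → W) (hc : Continuous H)
    (hA : ∀ t, ∀ x ∈ A, H (t, x) = w) : C(L, M K A W w) :=
  ⟨fun t => ⟨⟨fun x => H (t, x), by fun_prop⟩, hA t⟩,
    Continuous.subtype_mk (ContinuousMap.continuous_of_continuous_uncurry _
      (show Continuous fun z : L × K => H (z.1, z.2) from hc)) _⟩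

/-- A path of pointed maps from a homotopy. -/
def mkP {f g : M K A W w} (H : I × K → W) (hc : Continuous H) (hA : ∀ t, ∀ x ∈ A, H (t, x) = w)
    (h0 : ∀ x, H (0, x) = f.1 x) (h1 : ∀ x, H (1, x) = g.1 x) : Path f g :=
  ⟨fam H hc hA, M.ext h0, M.ext h1⟩

theorem unc2 (hK : ExpLaw.{u, v} K) (S : I × I → M K A W w) (hS : Continuous S) :
    Continuous fun q : (I × I) × K => (S q.1).1 q.2 :=
  hK W (fun z => (S z).1) (continuous_subtype_val.comp hS)

theorem unc1 (hK : ExpLaw.{u, v} K) (S : I → M K A W w) (hS : Continuous S) :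
    Continuous fun q : I × K => (S q.1).1 q.2 :=
  (unc2 hK (fun z => S z.1) (hS.comp continuous_fst)).comp
    (f := fun q : I × K => ((q.1, (0 : I)), q.2)) (by fun_prop)

/-- A homotopy rel `A` as a path. -/
def ofRel {f g : M K A W w} (H : f.1.HomotopyRel g.1 A) : Path f g :=
  mkP H H.continuous (fun t x hx => (H.eq_fst t hx).trans (f.2 x hx)) H.apply_zero H.apply_one

/-- A path as a homotopy rel `A`. -/
def toRel (hK : ExpLaw.{u, v} K) {f g : M K A W w} (γ : Path f g) : f.1.HomotopyRel g.1 A where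
  toFun q := (γ q.1).1 q.2
  continuous_toFun := unc1 hK γ γ.continuous
  map_zero_left x := M.ev γ.source x
  map_one_left x := M.ev γ.target x
  prop' t x hx := ((γ t).2 x hx).trans (f.2 x hx).symm

theorem trans_ev {f g h : M K A W w} (γ : Path f g) (γ' : Path g h) (x : K) {a b c : W}
    (δ : Path a b) (δ' : Path b c) (h1 : ∀ t, (γ t).1 x = δ t) (h2 : ∀ t, (γ' t).1 x = δ' t)
    (t : I) : ((γ.trans γ') t).1 x = (δ.trans δ') t := by
  rw [Path.trans_apply, Path.trans_apply]
  split_ifs
  · exact h1 _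
  · exact h2 _

/-- A pointed map to a loop space as a loop of pointed maps. -/
def lp (g : M K A (Path w w) (Path.refl w)) : Path (M.c : M K A W w) M.c :=
  mkP (fun q => g.1 q.2 q.1) (by fun_prop) (fun t x hx => by simp [g.2 x hx])
    (fun x => (g.1 x).source) fun x => (g.1 x).target

theorem exists_lp (hK : ExpLaw.{u, v} K) (γ : Path (M.c : M K A W w) M.c) :
    ∃ g : M K A (Path w w) (Path.refl w), lp g = γ := by
  have hc := unc1 hK γ γ.continuous
  refine ⟨⟨⟨fun x => ⟨⟨fun t => (γ t).1 x, by fun_prop⟩, M.ev γ.source x, M.ev γ.target x⟩,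
    Path.continuous_uncurry_iff.1 (show Continuous fun q : K × I => (γ q.2).1 q.1 from
      hc.comp continuous_swap)⟩, fun x hx => ?_⟩, ?_⟩
  · ext t
    exact (γ t).2 x hx
  · ext t x
    rfl

theorem lp_hom (hK : ExpLaw.{u, v} K) (g g' : M K A (Path w w) (Path.refl w)) :
    g.1.HomotopicRel g'.1 A ↔ (lp g).Homotopic (lp g') := by
  constructor
  · rintro ⟨H⟩
    refine ⟨⟨⟨fam (fun q : (I × I) × K => H (q.1.1, q.2) q.1.2) (by fun_prop)
      (fun t x hx => by simp [H.eq_fst _ hx, g.2 x hx]), fun s => M.ext fun x => ?_,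
      fun s => M.ext fun x => ?_⟩, fun t s hs => M.ext fun x => ?_⟩⟩
    · exact congrArg (fun γ : Path w w => γ s) (H.apply_zero x)
    · exact congrArg (fun γ : Path w w => γ s) (H.apply_one x)
    · rcases hs with rfl | rfl
      · exact (H (t, x)).source.trans (g.1 x).source.symm
      · exact (H (t, x)).target.trans (g.1 x).target.symm
  · rintro ⟨H⟩
    have hc := unc2 hK H H.continuous
    refine ⟨⟨⟨⟨fun q => ⟨⟨fun s => (H (q.1, s)).1 q.2,
      hc.comp (f := fun s : I => ((q.1, s), q.2)) (by fun_prop)⟩, M.ev (H.source q.1) q.2,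
      M.ev (H.target q.1) q.2⟩,
      Path.continuous_uncurry_iff.1 (show Continuous fun z : (I × K) × I =>
        (H (z.1.1, z.2)).1 z.1.2 from
        hc.comp (f := fun z : (I × K) × I => ((z.1.1, z.2), z.1.2)) (by fun_prop))⟩,
      fun x => ?_, fun x => ?_⟩, fun t x hx => ?_⟩⟩
    · ext s
      exact congrArg (fun f : M K A W w => f.1 x) (H.apply_zero s)
    · ext s
      exact congrArg (fun f : M K A W w => f.1 x) (H.apply_one s)
    · rw [g.2 x hx]
      ext s
      exact (H (t, s)).2 x hx

section fib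

variable {e : C(P, Q)} {h : e p = q}

/-- The first component of a pointed map to a homotopy fibre. -/
abbrev fb : C(M K A (Fib e q) (base e h), M K A P p) := M.map (pr e q) rfl

/-- The second component of a pointed map to a homotopy fibre. -/
def fg (f : M K A (Fib e q) (base e h)) : Path M.c (M.map e h (fb f)) :=
  mkP (fun z => (f.1 z.2).1.2 z.1) (by fun_prop) (fun t x hx => by rw [f.2 x hx]; rfl)
    (fun x => (f.1 x).2.1) fun x => (f.1 x).2.2

theorem exists_fib (hK : ExpLaw.{u, v} K) (b : M K A P p) (γ : Path M.c (M.map e h b)) :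
    ∃ f : M K A (Fib e q) (base e h), fb f = b ∧ ∀ t, fg f t = γ t := by
  have hc := unc1 hK γ γ.continuous
  refine ⟨⟨⟨fun x => ⟨(b.1 x, ⟨fun t => (γ t).1 x, by fun_prop⟩), M.ev γ.source x,
    M.ev γ.target x⟩, Continuous.subtype_mk (Continuous.prodMk (by fun_prop)
      (ContinuousMap.continuous_of_continuous_uncurry _
        (show Continuous fun z : K × I => (γ z.2).1 z.1 from hc.comp continuous_swap))) _⟩,
    fun x hx => Subtype.ext (Prod.ext (b.2 x hx) (ContinuousMap.ext fun t => (γ t).2 x hx))⟩,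
    rfl, fun t => rfl⟩

theorem fib_square (hK : ExpLaw.{u, v} K) {f g : M K A (Fib e q) (base e h)} (Λ : Path f g) :
    (fg g).Homotopic ((fg f).trans (pm (M.map e h) rfl rfl (pm fb rfl rfl Λ))) := by
  have hc := unc1 hK Λ Λ.continuous
  refine (Path.Homotopic.refl_trans _).symm.trans (square
    (fam (fun z : (I × I) × K => ((Λ z.1.1).1 z.2).1.2 z.1.2) ?_
      fun t x hx => by rw [(Λ t.1).2 x hx]; rfl) (fun t => M.ext fun x => ?_)
    (fun s => M.ext fun x => ?_) (fun s => M.ext fun x => ?_) fun t => M.ext fun x => ?_)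
  · have := hc.comp (f := fun z : (I × I) × K => (z.1.1, z.2)) (by fun_prop)
    exact (continuous_snd.comp (continuous_subtype_val.comp this)).eval (by fun_prop)
  · exact ((Λ t).1 x).2.1.symm
  · change _ = ((Λ 1).1 x).1.2 s
    rw [Λ.target]; rfl
  · change _ = ((Λ 0).1 x).1.2 s
    rw [Λ.source]; rfl
  · exact ((Λ t).1 x).2.2.symm

theorem fib_fill (hK : ExpLaw.{u, v} K) {f g : M K A (Fib e q) (base e h)} (ζ : Path (fb f) (fb g))
    (H : (fg g).Homotopic ((fg f).trans (pm (M.map e h) rfl rfl ζ))) :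
    ∃ Λ : Path f g, pm fb rfl rfl Λ = ζ := by
  obtain ⟨S, h1, h2, h3, h4⟩ := fill ((Path.Homotopic.refl_trans _).trans H)
  have hc := unc2 hK S S.continuous
  have hζ := unc1 hK ζ ζ.continuous
  refine ⟨mkP (fun z => ⟨((ζ z.1).1 z.2, ⟨fun s => (S (z.1, s)).1 z.2,
      hc.comp (f := fun s : I => ((z.1, s), z.2)) (by fun_prop)⟩),
      M.ev (h1 z.1) z.2, M.ev (h4 z.1) z.2⟩)
    (Continuous.subtype_mk (hζ.prodMk (ContinuousMap.continuous_of_continuous_uncurry _
      (show Continuous fun z : (I × K) × I => (S (z.1.1, z.2)).1 z.1.2 from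
        hc.comp (f := fun z : (I × K) × I => ((z.1.1, z.2), z.1.2)) (by fun_prop)))) _)
    (fun t x hx => Subtype.ext (Prod.ext ((ζ t).2 x hx)
      (ContinuousMap.ext fun s => (S (t, s)).2 x hx)))
    (fun x => Subtype.ext (Prod.ext ?_ (ContinuousMap.ext fun s => ?_)))
    (fun x => Subtype.ext (Prod.ext ?_ (ContinuousMap.ext fun s => ?_))), ?_⟩
  · change (ζ 0).1 x = _
    rw [ζ.source]; rfl
  · change (S (0, s)).1 x = _
    rw [h3]; rfl
  · change (ζ 1).1 x = _
    rw [ζ.target]; rfl
  · change (S (1, s)).1 x = _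
    rw [h2]; rfl
  · ext t x
    rfl

end fib

end Pool.Agent.Lib.MP_9c2101_gt
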