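import Pool.Agent.Lib.MP_9c2101_gt.Defs

/-!
Squares and homotopies of paths; algebra of path classes.
-/

set_option autoImplicit false

open Set unitInterval Topology ContinuousMap Filter

noncomputable section

namespace Pool.Agent.Lib.MP_9c2101_gt

universe u v w

variable {P Q W : Type v} [TopologicalSpace P] [TopologicalSpace Q] [TopologicalSpace W]

@[simp] theorem pm_apply (e : C(P, Q)) {a b : P} {a' b' : Q} (ha : e a = a') (hb : e b = b')
    (γ : Path a b) (t : I) : pm e ha hb γ t = e (γ t) := rfl

theorem pm_trans (e : C(P, Q)) {a b c : P} {a' b' c' : Q} (ha : e a = a') (hb : e b = b')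
    (hc : e c = c') (γ : Path a b) (γ' : Path b c) :
    pm e ha hc (γ.trans γ') = (pm e ha hb γ).trans (pm e hb hc γ') := by
  subst ha hb hc
  exact Path.map_trans γ γ' e.continuous

theorem pm_hom (e : C(P, Q)) {a b : P} {a' b' : Q} (ha : e a = a') (hb : e b = b')
    {γ γ' : Path a b} (h : γ.Homotopic γ') : (pm e ha hb γ).Homotopic (pm e ha hb γ') :=
  (h.map e).pathCast _ _

theorem square {V : Type w} [TopologicalSpace V] (S : C(I × I, V)) {a b c d : V} {α : Path a b}
    {γ' : Path b d} {γ : Path a c} {β : Path c d} (h1 : ∀ t, α t = S (t, 0))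
    (h2 : ∀ s, γ' s = S (1, s)) (h3 : ∀ s, γ s = S (0, s)) (h4 : ∀ t, β t = S (t, 1)) :
    (α.trans γ').Homotopic (γ.trans β) := by
  have : ContractibleSpace I := (convex_Icc (0 : ℝ) 1).contractibleSpace ⟨0, by simp⟩
  have H := (SimplyConnectedSpace.paths_homotopic
    ((Path.id.prod (Path.refl (0 : I))).trans ((Path.refl (1 : I)).prod Path.id))
    (((Path.refl (0 : I)).prod Path.id).trans (Path.id.prod (Path.refl (1 : I))))).map S
  have ha : a = S (0, 0) := by rw [← h1, α.source]
  have hd : d = S (1, 1) := by rw [← h2, γ'.target]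
  have e1 : α.trans γ' = (((Path.id.prod (Path.refl (0 : I))).trans
      ((Path.refl (1 : I)).prod Path.id)).map S.continuous).cast ha hd := by
    ext t
    simp only [Path.cast_coe, Path.map_coe, Function.comp_apply, Path.trans_apply]
    split_ifs
    · exact h1 _
    · exact h2 _
  have e2 : γ.trans β = ((((Path.refl (0 : I)).prod Path.id).trans
      (Path.id.prod (Path.refl (1 : I)))).map S.continuous).cast ha hd := by
    ext t
    simp only [Path.cast_coe, Path.map_coe, Function.comp_apply, Path.trans_apply]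
    split_ifs
    · exact h3 _
    · exact h4 _
  rw [e1, e2]
  exact H.pathCast _ _

theorem pinch {V : Type w} [TopologicalSpace V] {S : Type} [TopologicalSpace S] (H : C(I × I, V))
    (l r : S → I) (z : S) (hr : ContinuousAt r z) (a : V) (ha : ∀ x, H (x, r z) = a) :
    ContinuousAt (fun y => H (l y, r y)) z := by
  rw [ContinuousAt, ha]
  intro U hU
  have h1 : ∀ᶠ s in 𝓝 (r z), ∀ x ∈ (univ : Set I), H (x, s) ∈ U := by
    refine isCompact_univ.eventually_forall_of_forall_eventually fun x _ => ?_
    have hc : ContinuousAt (fun q : I × I => H (q.2, q.1)) (r z, x) := by fun_prop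
    exact hc (by simpa [ha] using hU)
  exact (hr.eventually h1).mono fun y hy => hy _ trivial

theorem fill {V : Type w} [TopologicalSpace V] {a b c d : V} {α : Path a b}
    {γ' : Path b d} {γ : Path a c} {β : Path c d} (h : (α.trans γ').Homotopic (γ.trans β)) :
    ∃ S : C(I × I, V), (∀ t, S (t, 0) = α t) ∧ (∀ s, S (1, s) = γ' s) ∧ (∀ s, S (0, s) = γ s) ∧
      ∀ t, S (t, 1) = β t := by
  obtain ⟨H⟩ := h
  let l : I × I → I := fun z =>
    projIcc 0 1 zero_le_one (z.2 * (1 - z.1) / (z.2 * (1 - z.1) + z.1 * (1 - z.2)))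
  let r : I × I → I := fun z => ⟨(z.1 + z.2) / 2, by
    constructor <;> linarith [z.1.2.1, z.1.2.2, z.2.2.1, z.2.2.2]⟩
  have hr : Continuous r := by fun_prop
  have hc : Continuous fun z => H (l z, r z) := by
    refine continuous_iff_continuousAt.2 fun z => ?_
    by_cases hz : (z.2 : ℝ) * (1 - z.1) + z.1 * (1 - z.2) = 0
    · have h1 : 0 ≤ (z.2 : ℝ) * (1 - z.1) := mul_nonneg z.2.2.1 (by linarith [z.1.2.2])
      have h2 : 0 ≤ (z.1 : ℝ) * (1 - z.2) := mul_nonneg z.1.2.1 (by linarith [z.2.2.2])
      have h3 : (z.1 : ℝ) = z.2 := by nlinarith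
      have h4 : (z.2 : ℝ) * (1 - z.2) = 0 := by rw [h3] at hz; linarith
      rcases mul_eq_zero.1 h4 with h5 | h5
      · have : r z = 0 := Subtype.ext (by simp [r, h3, h5])
        exact pinch H.toContinuousMap l r z hr.continuousAt a fun x => by
          rw [this]; exact H.source x
      · have : r z = 1 := Subtype.ext (by
          have : (z.2 : ℝ) = 1 := by linarith
          simp [r, h3, this])
        exact pinch H.toContinuousMap l r z hr.continuousAt d fun x => by
          rw [this]; exact H.target x
    · refine H.continuous.continuousAt.comp (ContinuousAt.prodMk ?_ hr.continuousAt)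
      exact continuous_projIcc.continuousAt.comp (ContinuousAt.div (by fun_prop) (by fun_prop) hz)
  have l0 : ∀ z : I × I, (z.2 : ℝ) * (1 - z.1) = 0 → H (l z, r z) = (α.trans γ') (r z) := by
    intro z hz
    have : l z = 0 := by simp only [l, hz, zero_div, projIcc_left]; rfl
    rw [this]; exact H.apply_zero _
  have l1 : ∀ z : I × I, (z.1 : ℝ) * (1 - z.2) = 0 → H (l z, r z) = (γ.trans β) (r z) := by
    intro z hz
    by_cases h0 : (z.2 : ℝ) * (1 - z.1) = 0
    · have h3 : (z.1 : ℝ) = z.2 := by nlinarith
      have h4 : (z.2 : ℝ) * (1 - z.2) = 0 := by rw [h3] at hz; exact hz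
      rcases mul_eq_zero.1 h4 with h5 | h5
      · have : r z = 0 := Subtype.ext (by simp [r, h3, h5])
        rw [this, H.source, Path.source]
      · have : r z = 1 := Subtype.ext (by
          have : (z.2 : ℝ) = 1 := by linarith
          simp [r, h3, this])
        rw [this, H.target, Path.target]
    · have : l z = 1 := by simp only [l, hz, add_zero, div_self h0, projIcc_right]; rfl
      rw [this]; exact H.apply_one _
  have lo : ∀ {a b c : V} (α : Path a b) (β : Path b c) (x t : I), (x : ℝ) = t / 2 →
      (α.trans β) x = α t := by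
    intro a b c α β x t hx
    rw [Path.trans_apply, dif_pos (by linarith [t.2.2])]
    exact congrArg α (Subtype.ext (by simp only; linarith))
  have hi : ∀ {a b c : V} (α : Path a b) (β : Path b c) (x t : I), (x : ℝ) = (1 + t) / 2 →
      (α.trans β) x = β t := by
    intro a b c α β x t hx
    rw [Path.trans_apply]
    split_ifs with h
    · have h0 : t = 0 := Subtype.ext (by have := t.2.1; simp only [Icc.coe_zero]; linarith)
      rw [h0, β.source]
      exact (congrArg α (Subtype.ext (by simp [hx, h0]))).trans α.target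
    · exact congrArg β (Subtype.ext (by simp only; linarith))
  refine ⟨⟨_, hc⟩, fun t => ?_, fun s => ?_, fun s => ?_, fun t => ?_⟩
  · exact (l0 (t, 0) (by simp)).trans (lo _ _ _ _ (by simp [r]))
  · exact (l0 (1, s) (by simp)).trans (hi _ _ _ _ (by simp [r]))
  · exact (l1 (0, s) (by simp)).trans (lo _ _ _ _ (by simp [r]))
  · exact (l1 (t, 1) (by simp)).trans (hi _ _ _ _ (by simp [r, add_comm]))

end Pool.Agent.Lib.MP_9c2101_gt
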